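import Pool.Agent.Lib.MP_cb27ba_nt.LN.Spec
import Pool.Agent.Lib.MP_cb27ba_nt.SP.PIV

/-! # Module BSGG of project LN: Balog-Szemerédi-Gowers in a group, from the graph lemma -/

set_option autoImplicit false

namespace MPcb27.LN

open Finset
open scoped Pointwise

namespace BSGGM

variable {G : Type} [Group G] [DecidableEq G]

/-- number of representations `x * y = s` -/
def rr (X : Finset G) (s : G) : ℕ :=
  #((X ×ˢ X).filter fun q => q.1 * q.2 = s)

lemma rr_le (X : Finset G) (s : G) : rr X s ≤ #X := by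
  unfold rr
  refine Finset.card_le_card_of_injOn (fun q => q.1) ?_ ?_
  · intro q hq
    simp only [Finset.coe_filter, Finset.mem_product, Set.mem_ofPred_eq] at hq
    exact hq.1.1
  · intro q hq q' hq' h
    simp only [Finset.coe_filter, Finset.mem_product, Set.mem_ofPred_eq] at hq hq'
    simp only at h
    refine Prod.ext h ?_
    have h1 := hq.2
    have h2 := hq'.2
    rw [h] at h1
    exact mul_left_cancel (h1.trans h2.symm)

lemma sum_rr (X : Finset G) : ∑ s ∈ X * X, rr X s = #X * #X := by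
  unfold rr
  rw [← Finset.card_product]
  exact (Finset.card_eq_sum_card_fiberwise (f := fun q : G × G => q.1 * q.2)
    (t := X * X) (fun q hq => by
      have hq' := Finset.mem_product.1 (Finset.mem_coe.1 hq)
      exact Finset.mem_coe.2 (Finset.mul_mem_mul hq'.1 hq'.2))).symm

lemma en_eq (X : Finset G) : EG X = ∑ s ∈ X * X, rr X s ^ 2 := by
  have h1 : ∀ s : G, rr X s ^ 2 =
      #((((X ×ˢ X) ×ˢ (X ×ˢ X)).filter fun q => q.1.1 * q.1.2 = q.2.1 * q.2.2).filter
        fun q => q.1.1 * q.1.2 = s) := by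
    intro s
    unfold rr
    rw [sq, ← Finset.card_product]
    congr 1
    ext q
    simp only [Finset.mem_product, Finset.mem_filter]
    constructor
    · rintro ⟨⟨⟨h1, h2⟩, h3⟩, ⟨h4, h5⟩, h6⟩
      exact ⟨⟨⟨⟨h1, h2⟩, h4, h5⟩, h3.trans h6.symm⟩, h3⟩
    · rintro ⟨⟨⟨⟨h1, h2⟩, h4, h5⟩, h6⟩, h3⟩
      exact ⟨⟨⟨h1, h2⟩, h3⟩, ⟨h4, h5⟩, h6.symm.trans h3⟩
  rw [Finset.sum_congr rfl fun s _ => h1 s]
  unfold EG
  exact Finset.card_eq_sum_card_fiberwise
    (f := fun q : (G × G) × G × G => q.1.1 * q.1.2)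
    (t := X * X) (fun q hq => by
      have hq' := (Finset.mem_filter.1 (Finset.mem_coe.1 hq)).1
      have hq2 := (Finset.mem_product.1 hq').1
      have hq3 := Finset.mem_product.1 hq2
      exact Finset.mem_coe.2 (Finset.mul_mem_mul hq3.1 hq3.2))

end BSGGM

open BSGGM in
theorem specBSGG : SpecBSGG := by
  obtain ⟨c, hc⟩ := SP.gr
  refine ⟨262144 * c ^ 4 + 2 * c + 18, ?_⟩
  intro G _ _ X K hK hX hE
  set N : ℝ := (#X : ℝ) with hN
  have hN1 : 1 ≤ N := by
    rw [hN]
    exact_mod_cast hX.card_pos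
  have hK0 : 0 < K := by linarith
  set S : Finset G := (X * X).filter fun s => N ≤ 2 * K * rr X s with hS
  set E : Finset (G × G) := (X ×ˢ X).filter fun q => q.1 * q.2 ∈ S with hE0
  have hsum : (∑ s ∈ X * X, (rr X s : ℝ)) = N ^ 2 := by
    have := sum_rr X
    have h2 : ((∑ s ∈ X * X, rr X s : ℕ) : ℝ) = ((#X * #X : ℕ) : ℝ) := by exact_mod_cast this
    rw [Nat.cast_sum, Nat.cast_mul] at h2
    rw [h2, sq]
  have hE2 : N ^ 3 ≤ K * ∑ s ∈ X * X, (rr X s : ℝ) ^ 2 := by
    rw [en_eq] at hE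
    have : ((∑ s ∈ X * X, rr X s ^ 2 : ℕ) : ℝ) = ∑ s ∈ X * X, (rr X s : ℝ) ^ 2 := by
      push_cast
      rfl
    rw [this] at hE
    exact hE
  have hGc : (#E : ℝ) = ∑ s ∈ S, (rr X s : ℝ) := by
    have h1 : #E = ∑ s ∈ S, rr X s := by
      rw [Finset.card_eq_sum_card_fiberwise (f := fun q : G × G => q.1 * q.2) (t := S)]
      · refine Finset.sum_congr rfl fun s hs => ?_
        unfold rr
        congr 1
        ext q
        simp only [hE0, Finset.mem_filter]
        constructor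
        · rintro ⟨⟨h1, h2⟩, h3⟩
          exact ⟨h1, h3⟩
        · rintro ⟨h1, h3⟩
          exact ⟨⟨h1, by rw [h3]; exact hs⟩, h3⟩
      · intro q hq
        simp only [hE0, Finset.coe_filter, Set.mem_ofPred_eq] at hq
        exact hq.2
    rw [h1]
    push_cast
    rfl
  -- many edges
  have hGbig : N * N ≤ 2 * K * #E := by
    have hsplit : ∑ s ∈ X * X, (rr X s : ℝ) ^ 2 =
        ∑ s ∈ S, (rr X s : ℝ) ^ 2 + ∑ s ∈ (X * X).filter (fun s => ¬ (N ≤ 2 * K * rr X s)),
          (rr X s : ℝ) ^ 2 := by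
      rw [hS]
      exact (Finset.sum_filter_add_sum_filter_not _ _ _).symm
    have h1 : ∑ s ∈ S, (rr X s : ℝ) ^ 2 ≤ N * #E := by
      rw [hGc, Finset.mul_sum]
      refine Finset.sum_le_sum fun s _ => ?_
      rw [sq]
      refine mul_le_mul_of_nonneg_right ?_ (Nat.cast_nonneg _)
      rw [hN]
      exact_mod_cast rr_le X s
    have h2 : 2 * K * ∑ s ∈ (X * X).filter (fun s => ¬ (N ≤ 2 * K * rr X s)),
        (rr X s : ℝ) ^ 2 ≤ N * N ^ 2 := by
      rw [← hsum, Finset.mul_sum, Finset.mul_sum]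
      refine (Finset.sum_le_sum fun s hs => ?_).trans
        (Finset.sum_le_sum_of_subset_of_nonneg (Finset.filter_subset _ _) fun s _ _ => ?_)
      · have hs' := (Finset.mem_filter.1 hs).2
        push Not at hs'
        have h0 : (0 : ℝ) ≤ (rr X s : ℝ) := Nat.cast_nonneg _
        calc 2 * K * (rr X s : ℝ) ^ 2 = (2 * K * rr X s) * rr X s := by ring
          _ ≤ N * rr X s := mul_le_mul_of_nonneg_right hs'.le h0
      · exact mul_nonneg (by linarith) (Nat.cast_nonneg _)
    have h3 : 2 * (K * ∑ s ∈ X * X, (rr X s : ℝ) ^ 2) ≤ 2 * K * (N * #E) + N * N ^ 2 := by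
      rw [hsplit]
      nlinarith [h1, h2]
    have h4 : N * (N * N) ≤ N * (2 * K * #E) := by nlinarith [h3, hE2]
    exact le_of_mul_le_mul_left h4 (by linarith)
  -- few popular products
  have hSc : (#S : ℝ) ≤ 2 * K * N := by
    have h1 : (#S : ℝ) * N ≤ 2 * K * N ^ 2 := by
      rw [← hsum, Finset.mul_sum, ← nsmul_eq_mul, ← Finset.sum_const]
      refine (Finset.sum_le_sum fun s hs => ?_).trans
        (Finset.sum_le_sum_of_subset_of_nonneg (Finset.filter_subset _ _) fun s _ _ => ?_)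
      · exact (Finset.mem_filter.1 hs).2
      · positivity
    have h2 : (#S : ℝ) * N ≤ (2 * K * N) * N := by nlinarith [h1]
    exact le_of_mul_le_mul_right h2 (by linarith)
  obtain ⟨A', B', hA', hB', hAc, hBc, hpath⟩ := hc G G X X E (2 * K) (by linarith)
    (Finset.filter_subset _ _) (by rw [← hN]; exact hGbig)
  rw [← hN] at hAc hBc
  -- the product set
  have hprod : (#(A' * B') : ℝ) ≤ 256 * c * K ^ 8 * N := by
    set T : G → Finset (G × G × G) := fun z =>
      (S ×ˢ S ×ˢ S).filter fun t => t.1 * t.2.1⁻¹ * t.2.2 = z with hT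
    have hTz : ∀ z ∈ A' * B', N * N ≤ c * (2 * K) ^ 5 * #(T z) := by
      intro z hz
      obtain ⟨a, ha, b, hb, rfl⟩ := Finset.mem_mul.1 hz
      have h1 := hpath a ha b hb
      rw [← hN] at h1
      refine h1.trans (mul_le_mul_of_nonneg_left ?_ (by positivity))
      norm_cast
      refine Finset.card_le_card_of_injOn (fun q => (a * q.2, q.1 * q.2, q.1 * b)) ?_ ?_
      · intro q hq
        simp only [Finset.coe_filter, Set.mem_ofPred_eq] at hq
        obtain ⟨_, h2, h3, h4⟩ := hq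
        simp only [hE0, Finset.mem_filter] at h2 h3 h4
        simp only [hT, Finset.coe_filter, Finset.mem_product, Set.mem_ofPred_eq]
        refine ⟨⟨h2.2, h3.2, h4.2⟩, ?_⟩
        group
      · intro q hq q' hq' h
        simp only [Prod.mk.injEq] at h
        exact Prod.ext (mul_right_cancel h.2.2) (mul_left_cancel h.1)
    have hTsum : ∑ z ∈ A' * B', (#(T z) : ℝ) ≤ (#S : ℝ) ^ 3 := by
      have h1 : ∑ z ∈ A' * B', #(T z) ≤ #(S ×ˢ S ×ˢ S) := by
        rw [← Finset.card_biUnion]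
        · refine Finset.card_le_card ?_
          intro t ht
          obtain ⟨z, _, hz⟩ := Finset.mem_biUnion.1 ht
          exact (Finset.mem_filter.1 hz).1
        · intro z _ z' _ hzz
          rw [Function.onFun, Finset.disjoint_left]
          intro t ht ht'
          exact hzz ((Finset.mem_filter.1 ht).2.symm.trans (Finset.mem_filter.1 ht').2)
      have h2 : ((∑ z ∈ A' * B', #(T z) : ℕ) : ℝ) ≤ ((#(S ×ˢ S ×ˢ S) : ℕ) : ℝ) := by
        exact_mod_cast h1
      rw [Finset.card_product, Finset.card_product] at h2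
      push_cast at h2
      calc _ ≤ (#S : ℝ) * ((#S : ℝ) * (#S : ℝ)) := h2
        _ = _ := by ring
    have h1 : (#(A' * B') : ℝ) * (N * N) ≤ c * (2 * K) ^ 5 * (2 * K * N) ^ 3 := by
      calc (#(A' * B') : ℝ) * (N * N) = ∑ z ∈ A' * B', N * N := by
            rw [Finset.sum_const, nsmul_eq_mul]
        _ ≤ ∑ z ∈ A' * B', c * (2 * K) ^ 5 * (#(T z) : ℝ) := Finset.sum_le_sum hTz
        _ = c * (2 * K) ^ 5 * ∑ z ∈ A' * B', (#(T z) : ℝ) := by rw [Finset.mul_sum]
        _ ≤ c * (2 * K) ^ 5 * (#S : ℝ) ^ 3 :=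
            mul_le_mul_of_nonneg_left hTsum (by positivity)
        _ ≤ c * (2 * K) ^ 5 * (2 * K * N) ^ 3 :=
            mul_le_mul_of_nonneg_left (pow_le_pow_left₀ (Nat.cast_nonneg _) hSc 3) (by positivity)
    have h2 : (#(A' * B') : ℝ) * (N * N) ≤ (256 * c * K ^ 8 * N) * (N * N) := by
      calc _ ≤ _ := h1
        _ = _ := by ring
    exact le_of_mul_le_mul_right h2 (mul_pos (by linarith) (by linarith))
  -- the constants
  have hc0 : (0 : ℝ) ≤ c := Nat.cast_nonneg _
  have hK1 : K ≤ K ^ (262144 * c ^ 4 + 2 * c + 18) := by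
    calc K = K ^ 1 := (pow_one K).symm
      _ ≤ _ := pow_le_pow_right₀ hK (by omega)
  have hK18 : K ^ 18 ≤ K ^ (262144 * c ^ 4 + 2 * c + 18) :=
    pow_le_pow_right₀ hK (by omega)
  have hA0 : (0 : ℝ) ≤ #A' := Nat.cast_nonneg _
  refine ⟨A', hA', ?_, ?_⟩
  · calc N ≤ c * (2 * K) * #A' := hAc
      _ = (2 * c : ℝ) * K * #A' := by ring
      _ ≤ _ := by
        refine mul_le_mul_of_nonneg_right ?_ hA0
        refine mul_le_mul ?_ hK1 hK0.le (Nat.cast_nonneg _)
        push_cast
        have : (0 : ℝ) ≤ (c : ℝ) ^ 4 := by positivity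
        linarith
  · have hR : (#(A' * A'⁻¹) : ℝ) * #B' ≤ (#(A' * B') : ℝ) * #(A' * B') := by
      have := Finset.ruzsa_triangle_inequality_div_mul_mul A' B' A'
      rw [div_eq_mul_inv] at this
      exact_mod_cast this
    set M : ℝ := (#(A' * A'⁻¹) : ℝ) with hM
    have hM0 : 0 ≤ M := Nat.cast_nonneg _
    have hP : (#(A' * B') : ℝ) * #(A' * B') ≤ (256 * c * K ^ 8 * N) * (256 * c * K ^ 8 * N) :=
      mul_le_mul hprod hprod (Nat.cast_nonneg _) (by positivity)
    have h1 : M * N ≤ (c * (2 * K) * ((256 * c * K ^ 8) * (256 * c * K ^ 8 * N))) * N := by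
      calc M * N ≤ M * (c * (2 * K) * #B') := mul_le_mul_of_nonneg_left hBc hM0
        _ = c * (2 * K) * (M * #B') := by ring
        _ ≤ c * (2 * K) * ((256 * c * K ^ 8 * N) * (256 * c * K ^ 8 * N)) :=
            mul_le_mul_of_nonneg_left (hR.trans hP) (by positivity)
        _ = _ := by ring
    have h2 : M ≤ c * (2 * K) * ((256 * c * K ^ 8) * (256 * c * K ^ 8 * N)) :=
      le_of_mul_le_mul_right h1 (by linarith)
    calc M ≤ c * (2 * K) * ((256 * c * K ^ 8) * (256 * c * K ^ 8 * N)) := h2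
      _ = (c * (2 * K) * ((256 * c * K ^ 8) * (256 * c * K ^ 8))) * N := by ring
      _ ≤ (c * (2 * K) * ((256 * c * K ^ 8) * (256 * c * K ^ 8))) * (c * (2 * K) * #A') :=
          mul_le_mul_of_nonneg_left hAc (by positivity)
      _ = (262144 * c ^ 4 : ℝ) * K ^ 18 * #A' := by ring
      _ ≤ _ := by
        refine mul_le_mul_of_nonneg_right ?_ hA0
        refine mul_le_mul ?_ hK18 (by positivity) (Nat.cast_nonneg _)
        push_cast
        linarith

end MPcb27.LN
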