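import Pool.Agent.Lib.MP_cb27ba_nt.LN.Spec
import Pool.Agent.Lib.MP_cb27ba_nt.SP.PIV

/-!
# MP_cb27ba_nt, project LN: CLS, sets of small growth in the affine group
-/

set_option autoImplicit false

namespace MPcb27.LN

open Finset
open scoped Pointwise
open MPcb27.SP (dil)

namespace CLS

variable {p : ℕ} [Fact p.Prime]

/-- the translations in `T` -/
def tr (T : Finset (Aff p)) : Finset (ZMod p) := univ.filter fun b => (⟨1, b⟩ : Aff p) ∈ T

theorem mem_tr {T : Finset (Aff p)} {b : ZMod p} : b ∈ tr T ↔ (⟨1, b⟩ : Aff p) ∈ T := by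
  simp [tr]

/-- a choice of elements with given slopes -/
theorem choice (S : Finset (Aff p)) :
    ∃ s : (ZMod p)ˣ → Aff p, ∀ l ∈ S.image Aff.a, s l ∈ S ∧ (s l).a = l := by
  classical
  have h : ∀ l : (ZMod p)ˣ, ∃ g : Aff p, l ∈ S.image Aff.a → g ∈ S ∧ g.a = l := by
    intro l
    by_cases hl : l ∈ S.image Aff.a
    · obtain ⟨g, hg, hg'⟩ := mem_image.1 hl
      exact ⟨g, fun _ => ⟨hg, hg'⟩⟩
    · exact ⟨1, fun h => absurd h hl⟩
  choose s hs using h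
  exact ⟨s, hs⟩

theorem card_tr_mul (T S : Finset (Aff p)) : #(tr T) * #(S.image Aff.a) ≤ #(T * S) := by
  obtain ⟨s, hs⟩ := choice S
  rw [← card_product]
  refine card_le_card_of_injOn (fun q => (⟨1, q.1⟩ : Aff p) * s q.2) ?_ ?_
  · intro q hq
    simp only [coe_product, Set.mem_prod, mem_coe] at hq
    exact mem_coe.2 (mul_mem_mul (mem_tr.1 hq.1) (hs _ hq.2).1)
  · rintro ⟨b, l⟩ hq ⟨b', l'⟩ hq' h
    simp only [coe_product, Set.mem_prod, mem_coe] at hq hq'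
    have ha := congrArg Aff.a h
    have hb := congrArg Aff.b h
    simp only [Aff.mul_a, Aff.mul_b, one_mul, Units.val_one] at ha hb
    rw [(hs _ hq.2).2, (hs _ hq'.2).2] at ha
    subst ha
    have : b = b' := by
      have := add_left_cancel hb
      exact this
    rw [this]

theorem card_le_tr (S : Finset (Aff p)) :
    #S ≤ #(tr (S * S⁻¹)) * #(S.image Aff.a) := by
  obtain ⟨s, hs⟩ := choice S
  refine card_le_mul_card_image S _ fun l hl => ?_
  obtain ⟨h1, h2⟩ := hs l hl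
  refine card_le_card_of_injOn (fun g => (g * (s l)⁻¹).b) ?_ ?_
  · intro g hg
    simp only [coe_filter, Set.mem_ofPred_eq] at hg
    refine mem_coe.2 (mem_tr.2 ?_)
    have e : (⟨1, (g * (s l)⁻¹).b⟩ : Aff p) = g * (s l)⁻¹ := by
      refine Aff.ext ?_ rfl
      simp only [Aff.mul_a, Aff.inv_a, hg.2, h2, mul_inv_cancel]
    rw [e]
    exact mul_mem_mul hg.1 (inv_mem_inv h1)
  · intro g hg g' hg' h
    simp only [coe_filter, Set.mem_ofPred_eq] at hg hg'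
    simp only [Aff.mul_b, hg.2, hg'.2] at h
    exact Aff.ext (hg.2.trans hg'.2.symm) (add_left_cancel h)

/-- the dilates of the translations -/
theorem sub_dil (S : Finset (Aff p)) (hS : S⁻¹ = S) {l : (ZMod p)ˣ} (hl : l ∈ S.image Aff.a) :
    tr (S ^ 2) - dil (l : ZMod p) (tr (S ^ 2)) ⊆ tr (S ^ 6) := by
  intro x hx
  obtain ⟨b, hb, y, hy, rfl⟩ := mem_sub.1 hx
  obtain ⟨b', hb', rfl⟩ := mem_image.1 hy
  obtain ⟨g, hg, rfl⟩ := mem_image.1 hl
  rw [mem_tr] at hb hb' ⊢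
  have hinv : (S ^ 2)⁻¹ = S ^ 2 := by rw [← inv_pow, hS]
  have h1 : (⟨1, b'⟩ : Aff p)⁻¹ ∈ S ^ 2 := by
    rw [← hinv]
    exact inv_mem_inv hb'
  have h2 : g⁻¹ ∈ S := by
    rw [← hS]
    exact inv_mem_inv hg
  have h3 : (⟨1, b⟩ : Aff p) * g * (⟨1, b'⟩ : Aff p)⁻¹ * g⁻¹ ∈ S ^ 2 * S * S ^ 2 * S :=
    mul_mem_mul (mul_mem_mul (mul_mem_mul hb hg) h1) h2
  have h4 : S ^ 2 * S * S ^ 2 * S = S ^ 6 := by
    rw [← pow_succ, ← pow_add, ← pow_succ]
  have h5 : (⟨1, b⟩ : Aff p) * g * (⟨1, b'⟩ : Aff p)⁻¹ * g⁻¹ = ⟨1, b - g.a * b'⟩ := by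
    refine Aff.ext ?_ ?_
    · simp
    · simp only [Aff.mul_b, Aff.mul_a, Aff.inv_a, Aff.inv_b, Units.val_one, one_mul,
        inv_one, mul_one]
      have : (g.a : ZMod p) * ((g.a⁻¹ : (ZMod p)ˣ) : ZMod p) = 1 := Units.mul_inv g.a
      linear_combination (-g.b) * this
  rw [← h5, ← h4]
  exact h3

/-- commutators with an element which fixes `x` -/
theorem card_orbit (S : Finset (Aff p)) (hS : S⁻¹ = S) (s : Aff p) (hs : s ∈ S) (hs1 : s.a ≠ 1) :
    ∃ x : ZMod p, #(S.image fun g => g.act x) ≤ #(tr (S ^ 4)) := by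
  have h0 : (1 : ZMod p) - s.a ≠ 0 := by
    intro h
    apply hs1
    ext
    rw [Units.val_one]
    exact (sub_eq_zero.1 h).symm
  refine ⟨s.b / (1 - s.a), ?_⟩
  obtain ⟨x, hx⟩ : ∃ x, x = s.b / (1 - s.a) := ⟨_, rfl⟩
  rw [← hx]
  have hx' : (1 - (s.a : ZMod p)) * x = s.b := by
    rw [hx]
    field_simp
  refine card_le_card_of_injOn (fun y => (1 - (s.a : ZMod p)) * y - s.b) ?_ ?_
  · intro y hy
    rw [mem_coe] at hy
    obtain ⟨t, ht, rfl⟩ := mem_image.1 hy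
    refine mem_coe.2 (mem_tr.2 ?_)
    have hinv : ∀ g ∈ S, g⁻¹ ∈ S := fun g hg => by
      rw [← hS]
      exact inv_mem_inv hg
    have h3 : t * s * t⁻¹ * s⁻¹ ∈ S * S * S * S :=
      mul_mem_mul (mul_mem_mul (mul_mem_mul ht hs) (hinv t ht)) (hinv s hs)
    have h4 : S * S * S * S = S ^ 4 := by
      rw [← pow_two, ← pow_succ, ← pow_succ]
    have h5 : t * s * t⁻¹ * s⁻¹ = ⟨1, (1 - (s.a : ZMod p)) * t.act x - s.b⟩ := by
      refine Aff.ext ?_ ?_
      · simp only [Aff.mul_a, Aff.inv_a]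
        rw [mul_comm t.a s.a]
        simp
      · simp only [Aff.mul_b, Aff.mul_a, Aff.inv_a, Aff.inv_b, Units.val_mul, Aff.act_def]
        have e1 : (s.a : ZMod p) * ((s.a⁻¹ : (ZMod p)ˣ) : ZMod p) = 1 := Units.mul_inv s.a
        have e2 : (t.a : ZMod p) * ((t.a⁻¹ : (ZMod p)ˣ) : ZMod p) = 1 := Units.mul_inv t.a
        linear_combination (-(t.a : ZMod p) * (t.a⁻¹ : (ZMod p)ˣ) * s.b) * e1 -
          (s.b + s.a * t.b) * e2 - t.a * hx'
    rw [← h5, ← h4]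
    exact h3
  · intro y _ y' _ h
    exact mul_left_cancel₀ h0 (sub_left_injective h)

end CLS

open CLS

theorem cls_main {p : ℕ} [Fact p.Prime] (S : Finset (Aff p)) (K : ℝ) (hK : 1 ≤ K) (h1 : 1 ∈ S)
    (hS : S⁻¹ = S) (hS7 : (#(S ^ 7) : ℝ) ≤ K * #S) (hL : 2 ≤ #(S.image Aff.a)) :
    ∃ V : Finset (ZMod p), V.Nonempty ∧
      (∀ l ∈ S.image Aff.a, (#(V - dil (l : ZMod p) V) : ℝ) ≤ K * #V) ∧
      (∃ x : ZMod p, (#(S.image fun g => g.act x) : ℝ) ≤ K * #V) ∧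
      (#V : ℝ) * #(S.image Aff.a) ≤ K * #S := by
  classical
  have hK0 : 0 < K := by linarith
  have hL0 : (0 : ℝ) < #(S.image Aff.a) := by exact_mod_cast (by omega : 0 < #(S.image Aff.a))
  have hSS : S * S⁻¹ = S ^ 2 := by rw [hS, pow_two]
  have hi : ∀ n : ℕ, n ≤ 6 → (#(tr (S ^ n)) : ℝ) * #(S.image Aff.a) ≤ K * #S := by
    intro n hn
    have e1 : #(tr (S ^ n)) * #(S.image Aff.a) ≤ #(S ^ 7) := by
      refine (card_tr_mul (S ^ n) S).trans ?_
      rw [← pow_succ]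
      exact card_le_card (pow_subset_pow_right h1 (Nat.succ_le_succ hn))
    have e2 : (#(tr (S ^ n)) : ℝ) * #(S.image Aff.a) ≤ (#(S ^ 7) : ℝ) := by
      rw [← Nat.cast_mul]
      exact Nat.cast_le.2 e1
    exact e2.trans hS7
  have hii : (#S : ℝ) ≤ #(tr (S ^ 2)) * #(S.image Aff.a) := by
    have := card_le_tr S
    rw [hSS] at this
    rw [← Nat.cast_mul]
    exact Nat.cast_le.2 this
  have hn : ∀ n : ℕ, n ≤ 6 → (#(tr (S ^ n)) : ℝ) ≤ K * #(tr (S ^ 2)) := by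
    intro n hn
    refine le_of_mul_le_mul_right ?_ hL0
    calc (#(tr (S ^ n)) : ℝ) * #(S.image Aff.a) ≤ K * #S := hi n hn
      _ ≤ K * (#(tr (S ^ 2)) * #(S.image Aff.a)) := mul_le_mul_of_nonneg_left hii hK0.le
      _ = _ := by ring
  refine ⟨tr (S ^ 2), ⟨0, mem_tr.2 ?_⟩, ?_, ?_, hi 2 (by norm_num)⟩
  · have : (1 : Aff p) ∈ S ^ 2 := by
      rw [pow_two]
      exact mem_mul.2 ⟨1, h1, 1, h1, one_mul _⟩
    exact this
  · intro l hl
    exact (Nat.cast_le.2 (card_le_card (sub_dil S hS hl))).trans (hn 6 le_rfl)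
  · obtain ⟨l, hl, hl1⟩ := exists_mem_ne (by omega : 1 < #(S.image Aff.a)) 1
    obtain ⟨s, hs, rfl⟩ := mem_image.1 hl
    obtain ⟨x, hx⟩ := card_orbit S hS s hs hl1
    exact ⟨x, (Nat.cast_le.2 hx).trans (hn 4 (by norm_num))⟩

theorem specCLS : SpecCLS := by
  classical
  intro m
  obtain ⟨C, hC⟩ := SP.specPIV m
  refine ⟨C + 1, ?_⟩
  intro p _ S K hK h1 hS hS7 hL hLm
  have hK0 : 0 < K := by linarith
  have hL0 : (0 : ℝ) < #(S.image Aff.a) := by exact_mod_cast (by omega : 0 < #(S.image Aff.a))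
  obtain ⟨V, hVne, hV1, ⟨x, hx⟩, hV3⟩ := cls_main S K hK h1 hS hS7 hL
  clear hS7
  -- the set of the slopes
  obtain ⟨L, hLdef⟩ : ∃ L : Finset (ZMod p), L = (S.image Aff.a).image fun u : (ZMod p)ˣ => (u : ZMod p) :=
    ⟨_, rfl⟩
  have hLcard : #L = #(S.image Aff.a) := by
    rw [hLdef]
    exact card_image_of_injective _ Units.val_injective
  have hpiv := hC p V L K hK hVne (by rw [hLcard]; exact hL) (by
    intro l hl
    rw [hLdef] at hl
    obtain ⟨u, hu, rfl⟩ := mem_image.1 hl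
    exact hV1 u hu) (by rw [hLcard]; exact hLm)
  have hC1 : (C : ℝ) ≤ ((C + 1 : ℕ) : ℝ) := by
    push_cast
    linarith
  rcases hpiv with h | h
  · left
    refine ⟨x, ?_⟩
    calc (#(S.image fun g => g.act x) : ℝ) ≤ K * #V := hx
      _ ≤ K * (C * K ^ C) := mul_le_mul_of_nonneg_left h hK0.le
      _ = C * K ^ (C + 1) := by ring
      _ ≤ _ := mul_le_mul_of_nonneg_right hC1 (by positivity)
  · right
    calc (p : ℝ) * #(S.image Aff.a) ≤ (C * K ^ C * #V) * #(S.image Aff.a) :=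
          mul_le_mul_of_nonneg_right h hL0.le
      _ = C * K ^ C * (#V * #(S.image Aff.a)) := by ring
      _ ≤ C * K ^ C * (K * #S) := mul_le_mul_of_nonneg_left hV3 (by positivity)
      _ = C * K ^ (C + 1) * #S := by ring
      _ ≤ _ := mul_le_mul_of_nonneg_right (mul_le_mul_of_nonneg_right hC1 (by positivity))
          (Nat.cast_nonneg _)

end MPcb27.LN
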