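import Pool.Agent.Lib.MP_cb27ba_nt.LN.Spec
import Pool.Agent.Lib.MP_cb27ba_nt.TW.EF

/-!
# MP_cb27ba_nt, project LN: NAL (the count of theorem A for families not concentrated on a line)
-/

set_option autoImplicit false

namespace MPcb27.LN

open Finset
open scoped Pointwise
open MPcb27.TU MPcb27.TW

namespace NALM

variable {p : ℕ} [Fact p.Prime]

/-- the law of `φ ψ⁻¹` -/
noncomputable def rho (Ψ : Finset (Aff p)) : Aff p → ℝ := fun g =>
  (∑ φ ∈ Ψ, ∑ ψ ∈ Ψ, if φ * ψ⁻¹ = g then (1 : ℝ) else 0) / (#Ψ : ℝ) ^ 2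

lemma rho_sum (Ψ : Finset (Aff p)) (F : Aff p → ℝ) :
    ∑ g, rho Ψ g * F g = (∑ φ ∈ Ψ, ∑ ψ ∈ Ψ, F (φ * ψ⁻¹)) / (#Ψ : ℝ) ^ 2 := by
  unfold rho
  have h1 : ∀ g : Aff p, (∑ φ ∈ Ψ, ∑ ψ ∈ Ψ, if φ * ψ⁻¹ = g then (1 : ℝ) else 0) /
      (#Ψ : ℝ) ^ 2 * F g =
      (∑ φ ∈ Ψ, ∑ ψ ∈ Ψ, if φ * ψ⁻¹ = g then F g else 0) / (#Ψ : ℝ) ^ 2 := by
    intro g
    rw [div_mul_eq_mul_div, sum_mul]
    congr 1
    refine sum_congr rfl fun φ _ => ?_
    rw [sum_mul]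
    refine sum_congr rfl fun ψ _ => ?_
    rw [ite_mul, one_mul, zero_mul]
  rw [sum_congr rfl fun g _ => h1 g, ← sum_div]
  congr 1
  rw [sum_comm]
  refine sum_congr rfl fun φ _ => ?_
  rw [sum_comm]
  refine sum_congr rfl fun ψ _ => ?_
  rw [sum_ite_eq, if_pos (mem_univ _)]

omit [Fact p.Prime] in
lemma rho_nonneg (Ψ : Finset (Aff p)) (g : Aff p) : 0 ≤ rho Ψ g := by
  unfold rho
  refine div_nonneg (sum_nonneg fun φ _ => sum_nonneg fun ψ _ => ?_) (by positivity)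
  split_ifs
  · exact zero_le_one
  · exact le_rfl

lemma rho_prob (Ψ : Finset (Aff p)) (hΨ : Ψ.Nonempty) : IsProb (rho Ψ) := by
  refine ⟨rho_nonneg Ψ, ?_⟩
  have h := rho_sum Ψ (fun _ => 1)
  simp only [mul_one, sum_const, nsmul_eq_mul] at h
  rw [h]
  have : (#Ψ : ℝ) ≠ 0 := by exact_mod_cast hΨ.card_pos.ne'
  field_simp

omit [Fact p.Prime] in
lemma rho_symm (Ψ : Finset (Aff p)) : IsSymm (rho Ψ) := by
  intro g
  unfold rho
  congr 1
  rw [sum_comm]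
  refine sum_congr rfl fun φ _ => sum_congr rfl fun ψ _ => ?_
  have h : (ψ * φ⁻¹ = g⁻¹) ↔ (φ * ψ⁻¹ = g) := by
    rw [← inv_inj, mul_inv_rev, inv_inv, inv_inv]
  simp only [h]

/-- masses of classes -/
lemma rho_mass (Ψ : Finset (Aff p)) (hΨ : Ψ.Nonempty) (P : Aff p → Prop) [DecidablePred P]
    (ε : ℝ) (h : ∀ ψ ∈ Ψ, (#(Ψ.filter fun φ => P (φ * ψ⁻¹)) : ℝ) ≤ ε * #Ψ) :
    ∑ g ∈ univ.filter P, rho Ψ g ≤ ε := by
  have hΨ0 : (0 : ℝ) < #Ψ := by exact_mod_cast hΨ.card_pos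
  have h1 := rho_sum Ψ (fun g => if P g then (1 : ℝ) else 0)
  have h2 : ∑ g ∈ univ.filter P, rho Ψ g = ∑ g, rho Ψ g * (if P g then (1 : ℝ) else 0) := by
    rw [sum_filter]
    refine sum_congr rfl fun g _ => ?_
    rw [mul_ite, mul_one, mul_zero]
  rw [h2, h1, div_le_iff₀ (by positivity), sum_comm]
  calc ∑ ψ ∈ Ψ, ∑ φ ∈ Ψ, (if P (φ * ψ⁻¹) then (1 : ℝ) else 0) ≤ ∑ _ψ ∈ Ψ, ε * (#Ψ : ℝ) := by
        refine sum_le_sum fun ψ hψ => ?_
        rw [← sum_filter, sum_const, nsmul_eq_mul, mul_one]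
        exact h ψ hψ
    _ = ε * (#Ψ : ℝ) ^ 2 := by
        rw [sum_const, nsmul_eq_mul]
        ring

/-- the form at `1_B - #B / p` -/
lemma form_eq (B : Finset (ZMod p)) (g : Aff p) :
    ∑ x, ((if g⁻¹.act x ∈ B then (1 : ℝ) else 0) - #B / p) *
      ((if x ∈ B then (1 : ℝ) else 0) - #B / p) =
      #(B.filter fun x => g⁻¹.act x ∈ B) - (#B : ℝ) ^ 2 / p := by
  have hp0 : (p : ℝ) ≠ 0 := by exact_mod_cast (Fact.out : p.Prime).ne_zero
  have e1 : ∑ x : ZMod p, (if x ∈ B then (1 : ℝ) else 0) = #B := by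
    rw [sum_ite_mem, univ_inter, sum_const, nsmul_eq_mul, mul_one]
  have e2 : ∑ x : ZMod p, (if g⁻¹.act x ∈ B then (1 : ℝ) else 0) = #B := by
    rw [← e1]
    refine Fintype.sum_equiv ⟨fun x => g⁻¹.act x, fun x => g.act x, fun x => by simp,
      fun x => by simp⟩ _ _ fun x => rfl
  have e3 : ∑ x : ZMod p, (if g⁻¹.act x ∈ B then (1 : ℝ) else 0) * (if x ∈ B then (1 : ℝ) else 0) =
      #(B.filter fun x => g⁻¹.act x ∈ B) := by
    have : ∀ x : ZMod p, (if g⁻¹.act x ∈ B then (1 : ℝ) else 0) * (if x ∈ B then (1 : ℝ) else 0) =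
        if x ∈ B then (if g⁻¹.act x ∈ B then (1 : ℝ) else 0) else 0 := by
      intro x
      by_cases h1 : x ∈ B <;> simp [h1]
    rw [sum_congr rfl fun x _ => this x, sum_ite_mem, univ_inter, ← sum_filter, sum_const,
      nsmul_eq_mul, mul_one]
  have e4 : ∑ _x : ZMod p, ((#B : ℝ) / p) * (#B / p) = (#B : ℝ) ^ 2 / p := by
    rw [sum_const, nsmul_eq_mul, card_univ, ZMod.card]
    field_simp
  calc ∑ x, ((if g⁻¹.act x ∈ B then (1 : ℝ) else 0) - #B / p) *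
        ((if x ∈ B then (1 : ℝ) else 0) - #B / p)
      = ∑ x, ((if g⁻¹.act x ∈ B then (1 : ℝ) else 0) * (if x ∈ B then (1 : ℝ) else 0) -
          (if g⁻¹.act x ∈ B then (1 : ℝ) else 0) * (#B / p) -
          (if x ∈ B then (1 : ℝ) else 0) * (#B / p) + (#B / p) * (#B / p)) :=
        sum_congr rfl fun x _ => by ring
    _ = #(B.filter fun x => g⁻¹.act x ∈ B) - (#B : ℝ) * (#B / p) - (#B : ℝ) * (#B / p) +
          (#B : ℝ) ^ 2 / p := by
        rw [sum_add_distrib, sum_sub_distrib, sum_sub_distrib, e3, ← sum_mul, ← sum_mul, e1, e2, e4]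
    _ = _ := by ring

end NALM

open NALM in
/-- **NAL** -/
theorem specNAL (h1 : SpecFLG) (h2 : SpecOPL) (h3 : SpecITR) : SpecNAL := by
  classical
  intro δ hδ
  obtain ⟨J, P₁, hJ⟩ := h1 δ hδ
  set κ₁ : ℝ := min (δ / (4 * 2 ^ J)) δ with hκ₁
  have hκ₁0 : 0 < κ₁ := lt_min (by positivity) hδ
  have hκ₁a : κ₁ ≤ δ / (4 * 2 ^ J) := min_le_left _ _
  have hκ₁b : κ₁ ≤ δ := min_le_right _ _
  obtain ⟨P₂, hP₂⟩ : ∃ P₂ : ℕ, ∀ p : ℕ, P₂ ≤ p → (2 : ℝ) ≤ (p : ℝ) ^ (κ₁ / 2) := by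
    refine ⟨⌈(2 : ℝ) ^ (2 / κ₁)⌉₊, fun p hp => ?_⟩
    have h4 : (2 : ℝ) ^ (2 / κ₁) ≤ p := (Nat.le_ceil _).trans (by exact_mod_cast hp)
    calc (2 : ℝ) = ((2 : ℝ) ^ (2 / κ₁)) ^ (κ₁ / 2) := by
          rw [← Real.rpow_mul (by norm_num), show 2 / κ₁ * (κ₁ / 2) = 1 by field_simp,
            Real.rpow_one]
      _ ≤ _ := Real.rpow_le_rpow (by positivity) h4 (by positivity)
  refine ⟨κ₁ / 2, by positivity, max P₁ P₂, ?_⟩
  intro p _ hp Φ B hΦ hoff hB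
  have hpr : p.Prime := Fact.out
  have hp1 : (1 : ℝ) ≤ p := by exact_mod_cast hpr.one_lt.le
  have hp0 : (0 : ℝ) < p := by linarith
  rcases Φ.eq_empty_or_nonempty with rfl | hΦn
  · have : NA (∅ : Finset (ZMod p × ZMod p)) B = 0 := by
      unfold NA
      simp
    rw [this]
    push_cast
    positivity
  -- the family as a subset of the group
  obtain ⟨Ψ, hΨ⟩ : ∃ Ψ : Finset (Aff p), Ψ = univ.filter fun g : Aff p => ((g.a : ZMod p), g.b) ∈ Φ :=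
    ⟨_, rfl⟩
  have hmem : ∀ g : Aff p, g ∈ Ψ ↔ ((g.a : ZMod p), g.b) ∈ Φ := by
    intro g
    rw [hΨ, mem_filter]
    simp
  have hbij : ∀ F : ZMod p × ZMod p → ℝ, ∑ g ∈ Ψ, F ((g.a : ZMod p), g.b) = ∑ φ ∈ Φ, F φ := by
    intro F
    refine sum_bij (fun g _ => ((g.a : ZMod p), g.b)) (fun g hg => (hmem g).1 hg) ?_ ?_
      (fun g _ => rfl)
    · intro g _ g' _ h
      simp only [Prod.mk.injEq] at h
      exact Aff.ext (Units.ext h.1) h.2
    · intro φ hφ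
      refine ⟨⟨Units.mk0 φ.1 (hΦ φ hφ), φ.2⟩, ?_, rfl⟩
      rw [hmem]
      simpa using hφ
  have hcard : (#Ψ : ℝ) = #Φ := by
    have := hbij (fun _ => 1)
    simpa using this
  have hΨn : Ψ.Nonempty := by
    rw [← card_pos]
    have h4 : (0 : ℝ) < #Φ := by exact_mod_cast hΦn.card_pos
    rw [← hcard] at h4
    exact_mod_cast h4
  have hcf : ∀ Q : ZMod p × ZMod p → Prop, [DecidablePred Q] →
      (#(Ψ.filter fun g => Q ((g.a : ZMod p), g.b)) : ℝ) = #(Φ.filter Q) := by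
    intro Q _
    have h4 := hbij (fun φ => if Q φ then (1 : ℝ) else 0)
    rw [← sum_filter, ← sum_filter, sum_const, sum_const, nsmul_eq_mul, nsmul_eq_mul, mul_one,
      mul_one] at h4
    exact h4
  -- flattening
  have hfl := hJ p ((le_max_left _ _).trans hp) (rho Ψ) (rho_prob Ψ hΨn)
    (fun d => rho_mass Ψ hΨn (fun g => g.a = d) _ (by
      intro ψ _
      rw [hcard]
      refine le_trans (le_of_eq ?_) (hoff.1 ((d * ψ.a : (ZMod p)ˣ) : ZMod p))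
      rw [← hcf]
      congr 2
      refine filter_congr fun φ _ => ?_
      simp only [Aff.mul_a, Aff.inv_a]
      rw [mul_inv_eq_iff_eq_mul, Units.ext_iff]))
    (fun x y => rho_mass Ψ hΨn (fun g => g.act x = y) _ (by
      intro ψ _
      rw [hcard]
      refine le_trans (le_of_eq ?_) (hoff.2 (ψ⁻¹.act x) y)
      rw [← hcf]
      congr 2
      refine filter_congr fun φ _ => ?_
      simp only [Aff.act_mul]
      rfl))
  -- the function
  obtain ⟨f, hf⟩ : ∃ f : ZMod p → ℝ, f = fun x => (if x ∈ B then (1 : ℝ) else 0) - #B / p :=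
    ⟨_, rfl⟩
  have hf0 : ∑ x, f x = 0 := by
    rw [hf, sum_sub_distrib, sum_ite_mem, univ_inter, sum_const, sum_const, nsmul_eq_mul,
      nsmul_eq_mul, mul_one, card_univ, ZMod.card]
    field_simp
    ring
  have hf2 : ∑ x, f x ^ 2 ≤ #B := by
    have h4 := form_eq B (1 : Aff p)
    have h5 : ∑ x, f x ^ 2 = #(B.filter fun x => (1 : Aff p)⁻¹.act x ∈ B) - (#B : ℝ) ^ 2 / p := by
      rw [← h4]
      refine sum_congr rfl fun x _ => ?_
      rw [hf]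
      simp only [inv_one, Aff.act_one]
      ring
    rw [h5]
    have h6 : (#(B.filter fun x => (1 : Aff p)⁻¹.act x ∈ B) : ℝ) ≤ #B := by
      exact_mod_cast card_le_card (filter_subset _ _)
    have h7 : (0 : ℝ) ≤ (#B : ℝ) ^ 2 / p := by positivity
    linarith
  have hf20 : 0 ≤ ∑ x, f x ^ 2 := sum_nonneg fun _ _ => by positivity
  -- the bound for the form
  have hQ : QF (rho Ψ) f ≤ (p : ℝ) ^ (-κ₁) * #B := by
    rcases le_or_gt (QF (rho Ψ) f) 0 with hneg | hpos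
    · exact hneg.trans (by positivity)
    have h4 := h3 p (rho Ψ) f (rho_symm Ψ) J
    have h5 := h2 p (dbl (rho Ψ) J) f hf0
    have h6 : QF (dbl (rho Ψ) J) f ≤ (p : ℝ) ^ (-(δ / 4)) * ∑ x, f x ^ 2 := by
      have h7 : QF (dbl (rho Ψ) J) f ^ 2 ≤ ((p : ℝ) ^ (-(δ / 4)) * ∑ x, f x ^ 2) ^ 2 := by
        refine h5.trans ?_
        rw [mul_pow]
        refine mul_le_mul_of_nonneg_right ?_ (by positivity)
        calc (p : ℝ) * l2 (dbl (rho Ψ) J) ≤ p * (p : ℝ) ^ (-(1 + δ / 2)) :=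
              mul_le_mul_of_nonneg_left hfl hp0.le
          _ = (p : ℝ) ^ (1 : ℝ) * (p : ℝ) ^ (-(1 + δ / 2)) := by rw [Real.rpow_one]
          _ = ((p : ℝ) ^ (-(δ / 4))) ^ 2 := by
              rw [← Real.rpow_add hp0, ← Real.rpow_natCast, ← Real.rpow_mul hp0.le]
              congr 1
              push_cast
              ring
      exact le_of_sq_le_sq h7 (by positivity)
    have hu : 1 ≤ 2 ^ J := Nat.one_le_two_pow
    have h8 : QF (rho Ψ) f ^ 2 ^ J ≤ (p : ℝ) ^ (-(δ / 4)) * (#B : ℝ) ^ 2 ^ J := by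
      refine h4.trans ?_
      calc QF (dbl (rho Ψ) J) f * (∑ x, f x ^ 2) ^ (2 ^ J - 1) ≤
            ((p : ℝ) ^ (-(δ / 4)) * ∑ x, f x ^ 2) * (∑ x, f x ^ 2) ^ (2 ^ J - 1) :=
            mul_le_mul_of_nonneg_right h6 (by positivity)
        _ = (p : ℝ) ^ (-(δ / 4)) * (∑ x, f x ^ 2) ^ 2 ^ J := by
            rw [mul_assoc, ← pow_succ', Nat.sub_add_cancel hu]
        _ ≤ _ := by
            refine mul_le_mul_of_nonneg_left ?_ (by positivity)
            exact pow_le_pow_left₀ hf20 hf2 _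
    have h9 : QF (rho Ψ) f ^ 2 ^ J ≤ ((p : ℝ) ^ (-(δ / (4 * 2 ^ J))) * #B) ^ 2 ^ J := by
      refine h8.trans (le_of_eq ?_)
      rw [mul_pow, ← Real.rpow_natCast ((p : ℝ) ^ (-(δ / (4 * 2 ^ J)))), ← Real.rpow_mul hp0.le]
      congr 2
      push_cast
      field_simp
    have h10 : QF (rho Ψ) f ≤ (p : ℝ) ^ (-(δ / (4 * 2 ^ J))) * #B :=
      le_of_pow_le_pow_left₀ (by positivity) (by positivity) h9
    refine h10.trans (mul_le_mul_of_nonneg_right ?_ (by positivity))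
    exact Real.rpow_le_rpow_of_exponent_le hp1 (by linarith)
  -- the form as a count
  have hcount : ∑ φ ∈ Φ, ∑ ψ ∈ Φ,
      (#((univ : Finset (ZMod p)).filter fun z => φ.1 * z + φ.2 ∈ B ∧ ψ.1 * z + ψ.2 ∈ B) : ℝ) =
      (#Φ : ℝ) ^ 2 * (QF (rho Ψ) f + (#B : ℝ) ^ 2 / p) := by
    have h4 : QF (rho Ψ) f = (∑ φ ∈ Ψ, ∑ ψ ∈ Ψ,
        ((#(B.filter fun x => (φ * ψ⁻¹)⁻¹.act x ∈ B) : ℝ) - (#B : ℝ) ^ 2 / p)) /
        (#Ψ : ℝ) ^ 2 := by
      rw [← rho_sum Ψ fun g => (#(B.filter fun x => g⁻¹.act x ∈ B) : ℝ) - (#B : ℝ) ^ 2 / p]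
      unfold QF
      refine sum_congr rfl fun g _ => ?_
      rw [← form_eq B g, hf]
    have h5 : ∀ φ ψ : Aff p, (#(B.filter fun x => (φ * ψ⁻¹)⁻¹.act x ∈ B) : ℝ) =
        #((univ : Finset (ZMod p)).filter fun z =>
          (φ.a : ZMod p) * z + φ.b ∈ B ∧ (ψ.a : ZMod p) * z + ψ.b ∈ B) := by
      intro φ ψ
      congr 1
      refine card_bij (fun x _ => φ⁻¹.act x) ?_ ?_ ?_
      · intro x hx
        rw [mem_filter] at hx
        rw [mem_filter]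
        refine ⟨mem_univ _, ?_, ?_⟩
        · have : φ.act (φ⁻¹.act x) = x := by simp
          rw [Aff.act_def] at this
          rw [this]
          exact hx.1
        · have : ψ.act (φ⁻¹.act x) = (φ * ψ⁻¹)⁻¹.act x := by
            rw [mul_inv_rev, inv_inv, Aff.act_mul]
          rw [Aff.act_def] at this
          rw [this]
          exact hx.2
      · intro x _ y _ h
        exact (Aff.act_inj _).1 h
      · intro z hz
        rw [mem_filter] at hz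
        refine ⟨φ.act z, ?_, by simp⟩
        rw [mem_filter]
        refine ⟨hz.2.1, ?_⟩
        have : (φ * ψ⁻¹)⁻¹.act (φ.act z) = ψ.act z := by
          rw [mul_inv_rev, inv_inv, Aff.act_mul, Aff.act_inv_act]
        rw [this]
        exact hz.2.2
    have hΨ0 : (#Ψ : ℝ) ≠ 0 := by exact_mod_cast hΨn.card_pos.ne'
    rw [h4]
    simp only [sum_sub_distrib, sum_const, nsmul_eq_mul]
    rw [← hcard, sum_congr rfl fun φ _ => sum_congr rfl fun ψ _ => h5 φ ψ]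
    rw [← hbij fun φ => ∑ ψ ∈ Φ, (#((univ : Finset (ZMod p)).filter fun z =>
      φ.1 * z + φ.2 ∈ B ∧ ψ.1 * z + ψ.2 ∈ B) : ℝ)]
    rw [sum_congr rfl fun φ _ => (hbij fun ψ => (#((univ : Finset (ZMod p)).filter fun z =>
      (φ.a : ZMod p) * z + φ.b ∈ B ∧ ψ.1 * z + ψ.2 ∈ B) : ℝ)).symm]
    field_simp
    ring
  have hNA : (NA Φ B : ℝ) ≤ #B * ((#Φ : ℝ) ^ 2 * (QF (rho Ψ) f + (#B : ℝ) ^ 2 / p)) := by
    rw [← hcount, NA_eq Φ B hΦ]
    push_cast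
    rw [mul_sum]
    refine sum_le_sum fun φ hφ => ?_
    rw [mul_sum]
    refine sum_le_sum fun ψ _ => ?_
    rw [pow_two]
    refine mul_le_mul_of_nonneg_right ?_ (by positivity)
    have h4 : #((univ : Finset (ZMod p)).filter fun z =>
        φ.1 * z + φ.2 ∈ B ∧ ψ.1 * z + ψ.2 ∈ B) ≤ #B := by
      refine card_le_card_of_injOn (fun z => φ.1 * z + φ.2) ?_ ?_
      · intro z hz
        rw [mem_coe, mem_filter] at hz
        exact hz.2.1
      · intro z _ z' _ h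
        simp only [add_left_inj] at h
        exact mul_left_cancel₀ (hΦ φ hφ) h
    exact_mod_cast h4
  -- end
  have hBp : (#B : ℝ) ^ 2 / p ≤ (p : ℝ) ^ (-κ₁) * #B := by
    rw [div_le_iff₀ hp0]
    have h4 : (#B : ℝ) ≤ (p : ℝ) ^ (-κ₁) * p := by
      calc (#B : ℝ) ≤ (p : ℝ) ^ (1 - δ) := hB
        _ ≤ (p : ℝ) ^ (-κ₁ + 1) := Real.rpow_le_rpow_of_exponent_le hp1 (by linarith)
        _ = (p : ℝ) ^ (-κ₁) * p := by rw [Real.rpow_add hp0, Real.rpow_one]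
    calc (#B : ℝ) ^ 2 = #B * #B := by ring
      _ ≤ ((p : ℝ) ^ (-κ₁) * p) * #B := mul_le_mul_of_nonneg_right h4 (by positivity)
      _ = _ := by ring
  calc (NA Φ B : ℝ) ≤ #B * ((#Φ : ℝ) ^ 2 * (QF (rho Ψ) f + (#B : ℝ) ^ 2 / p)) := hNA
    _ ≤ #B * ((#Φ : ℝ) ^ 2 * (2 * (p : ℝ) ^ (-κ₁) * #B)) := by
        refine mul_le_mul_of_nonneg_left (mul_le_mul_of_nonneg_left ?_ (by positivity))
          (by positivity)
        linarith
    _ = (2 * (p : ℝ) ^ (-κ₁)) * ((#Φ : ℝ) ^ 2 * (#B : ℝ) ^ 2) := by ring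
    _ ≤ (p : ℝ) ^ (-(κ₁ / 2)) * ((#Φ : ℝ) ^ 2 * (#B : ℝ) ^ 2) := by
        refine mul_le_mul_of_nonneg_right ?_ (by positivity)
        calc 2 * (p : ℝ) ^ (-κ₁) ≤ (p : ℝ) ^ (κ₁ / 2) * (p : ℝ) ^ (-κ₁) :=
              mul_le_mul_of_nonneg_right (hP₂ p ((le_max_right _ _).trans hp)) (by positivity)
          _ = (p : ℝ) ^ (-(κ₁ / 2)) := by
              rw [← Real.rpow_add hp0]
              congr 1
              ring

end MPcb27.LN
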