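import Pool.Agent.Lib.MP_cb27ba_nt.LN.Spec

section
/-!
# MP_cb27ba_nt, module APX of the project LN: approximate groups from small doubling
-/
set_option autoImplicit false

namespace MPcb27.LN

open Finset
open scoped Pointwise

namespace APX

variable {G : Type} [Group G] [DecidableEq G]

/-- number of representations `s = u⁻¹ v` -/
def rr (X : Finset G) (s : G) : ℕ := #(X.filter fun u => u * s ∈ X)

theorem rr_inv (X : Finset G) (s : G) : rr X s⁻¹ = rr X s := by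
  unfold rr
  refine Finset.card_bij' (fun u _ => u * s⁻¹) (fun u _ => u * s) ?_ ?_ ?_ ?_
  · intro u hu
    rw [Finset.mem_filter] at hu ⊢
    exact ⟨hu.2, by rw [inv_mul_cancel_right]; exact hu.1⟩
  · intro u hu
    rw [Finset.mem_filter] at hu ⊢
    exact ⟨hu.2, by rw [mul_inv_cancel_right]; exact hu.1⟩
  · intro u _
    rw [inv_mul_cancel_right]
  · intro u _
    rw [mul_inv_cancel_right]

/-- popular quotients -/
noncomputable def pop (X : Finset G) (K : ℝ) : Finset G :=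
  (X⁻¹ * X).filter fun s => (#X : ℝ) ≤ 2 * K * rr X s

/-- first counting lemma -/
theorem card_mul_le (X T : Finset G) {K : ℝ} (hK : 1 ≤ K) {S : Finset G}
    (hS : ∀ s ∈ S, (#X : ℝ) ≤ 2 * K * rr X s) :
    (#(S * T) : ℝ) * #X ≤ 2 * K * (#X * #(X * T)) := by
  have hdec : ∀ z ∈ S * T, ∃ s t, s ∈ S ∧ t ∈ T ∧ s * t = z := by
    intro z hz
    obtain ⟨s, hs, t, ht, h⟩ := Finset.mem_mul.1 hz
    exact ⟨s, t, hs, ht, h⟩
  choose! s t hs ht hst using hdec
  have h1 : (#(S * T) : ℝ) * #X ≤ 2 * K * #((S * T).sigma fun z => X.filter fun u => u * s z ∈ X) := by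
    rw [Finset.card_sigma, Nat.cast_sum, Finset.mul_sum, ← nsmul_eq_mul, ← Finset.sum_const]
    exact Finset.sum_le_sum fun z hz => hS _ (hs z hz)
  have h2 : #((S * T).sigma fun z => X.filter fun u => u * s z ∈ X) ≤ #(X ×ˢ (X * T)) := by
    refine Finset.card_le_card_of_injOn (fun q => (q.2, q.2 * q.1)) ?_ ?_
    · rintro ⟨z, u⟩ hq
      rw [Finset.mem_coe, Finset.mem_sigma, Finset.mem_filter] at hq
      rw [Finset.mem_coe, Finset.mem_product]
      refine ⟨hq.2.1, ?_⟩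
      change u * z ∈ X * T
      rw [← hst z hq.1, ← mul_assoc]
      exact Finset.mul_mem_mul hq.2.2 (ht z hq.1)
    · rintro ⟨z, u⟩ _ ⟨z', u'⟩ _ h
      have h1 : u = u' := congrArg Prod.fst h
      have h2 : u * z = u' * z' := congrArg Prod.snd h
      subst h1
      rw [mul_left_cancel h2]
  have h3 : (#((S * T).sigma fun z => X.filter fun u => u * s z ∈ X) : ℝ) ≤ #X * #(X * T) := by
    rw [Finset.card_product] at h2
    exact_mod_cast h2
  calc (#(S * T) : ℝ) * #X ≤ _ := h1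
    _ ≤ _ := mul_le_mul_of_nonneg_left h3 (by linarith)

/-- second counting lemma -/
theorem card_mul_mul_le (X T : Finset G) {K : ℝ} (hK : 1 ≤ K) {S : Finset G}
    (hS : ∀ s ∈ S, (#X : ℝ) ≤ 2 * K * rr X s) :
    (#(X * (S * T)) : ℝ) * #X ≤ 2 * K * (#(X * X⁻¹) * #(X * T)) := by
  have hdec : ∀ z ∈ X * (S * T), ∃ x s t, x ∈ X ∧ s ∈ S ∧ t ∈ T ∧ x * (s * t) = z := by
    intro z hz
    obtain ⟨x, hx, w, hw, h⟩ := Finset.mem_mul.1 hz
    obtain ⟨s, hs, t, ht, h'⟩ := Finset.mem_mul.1 hw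
    exact ⟨x, s, t, hx, hs, ht, by rw [h', h]⟩
  choose! x s t hx hs ht hst using hdec
  have h1 : (#(X * (S * T)) : ℝ) * #X
      ≤ 2 * K * #((X * (S * T)).sigma fun z => X.filter fun u => u * s z ∈ X) := by
    rw [Finset.card_sigma, Nat.cast_sum, Finset.mul_sum, ← nsmul_eq_mul, ← Finset.sum_const]
    exact Finset.sum_le_sum fun z hz => hS _ (hs z hz)
  have h2 : #((X * (S * T)).sigma fun z => X.filter fun u => u * s z ∈ X)
      ≤ #((X * X⁻¹) ×ˢ (X * T)) := by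
    refine Finset.card_le_card_of_injOn
      (fun q => (x q.1 * q.2⁻¹, q.2 * (s q.1 * t q.1))) ?_ ?_
    · rintro ⟨z, u⟩ hq
      rw [Finset.mem_coe, Finset.mem_sigma, Finset.mem_filter] at hq
      rw [Finset.mem_coe, Finset.mem_product]
      refine ⟨Finset.mul_mem_mul (hx z hq.1) (Finset.inv_mem_inv hq.2.1), ?_⟩
      change u * (s z * t z) ∈ X * T
      rw [← mul_assoc]
      exact Finset.mul_mem_mul hq.2.2 (ht z hq.1)
    · rintro ⟨z, u⟩ hq ⟨z', u'⟩ hq' h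
      rw [Finset.mem_coe, Finset.mem_sigma] at hq hq'
      have e1 : x z * u⁻¹ = x z' * u'⁻¹ := congrArg Prod.fst h
      have e2 : u * (s z * t z) = u' * (s z' * t z') := congrArg Prod.snd h
      have e3 : z = z' := by
        rw [← hst z hq.1, ← hst z' hq'.1]
        calc x z * (s z * t z) = (x z * u⁻¹) * (u * (s z * t z)) := by group
          _ = (x z' * u'⁻¹) * (u' * (s z' * t z')) := by rw [e1, e2]
          _ = x z' * (s z' * t z') := by group
      subst e3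
      have e4 := mul_left_cancel e1
      rw [inv_inj.1 e4]
  have h3 : (#((X * (S * T)).sigma fun z => X.filter fun u => u * s z ∈ X) : ℝ)
      ≤ #(X * X⁻¹) * #(X * T) := by
    rw [Finset.card_product] at h2
    exact_mod_cast h2
  calc (#(X * (S * T)) : ℝ) * #X ≤ _ := h1
    _ ≤ _ := mul_le_mul_of_nonneg_left h3 (by linarith)

/-- energy as a sum over pairs -/
theorem energy_le (X : Finset G) :
    Finset.mulEnergy X X⁻¹ ≤ ∑ q ∈ X ×ˢ X, rr X (q.1⁻¹ * q.2) := by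
  unfold Finset.mulEnergy rr
  rw [← Finset.card_sigma (X ×ˢ X) fun q => X.filter fun u => u * (q.1⁻¹ * q.2) ∈ X]
  refine Finset.card_le_card_of_injOn (fun y => ⟨(y.1.1, y.1.2), y.2.1⁻¹⟩) ?_ ?_
  · rintro ⟨⟨a, a'⟩, b, b'⟩ hy
    rw [Finset.mem_coe, Finset.mem_filter, Finset.mem_product, Finset.mem_product,
      Finset.mem_product] at hy
    obtain ⟨⟨⟨ha, ha'⟩, hb, hb'⟩, h⟩ := hy
    change a ∈ X at ha
    change a' ∈ X at ha'
    change b ∈ X⁻¹ at hb
    change b' ∈ X⁻¹ at hb'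
    change a * b = a' * b' at h
    rw [Finset.mem_coe, Finset.mem_sigma, Finset.mem_filter]
    refine ⟨Finset.mem_product.2 ⟨ha, ha'⟩, Finset.mem_inv'.1 hb, ?_⟩
    change b⁻¹ * (a⁻¹ * a') ∈ X
    have : b⁻¹ * (a⁻¹ * a') = b'⁻¹ := by
      have h' : b' = a'⁻¹ * (a * b) := by rw [h]; group
      rw [h']
      group
    rw [this]
    exact Finset.mem_inv'.1 hb'
  · rintro ⟨⟨a, a'⟩, b, b'⟩ hy ⟨⟨c, c'⟩, d, d'⟩ hz h
    rw [Finset.mem_coe, Finset.mem_filter] at hy hz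
    have h1 : a * b = a' * b' := hy.2
    have h2 : c * d = c' * d' := hz.2
    have e1 := congrArg (fun w : (Σ _ : G × G, G) => w.1.1) h
    have e2 := congrArg (fun w : (Σ _ : G × G, G) => w.1.2) h
    have e3 := congrArg (fun w : (Σ _ : G × G, G) => w.2) h
    change a = c at e1
    change a' = c' at e2
    change b⁻¹ = d⁻¹ at e3
    subst e1 e2
    obtain rfl := inv_inj.1 e3
    rw [h1] at h2
    rw [mul_left_cancel h2]

end APX

open APX

theorem specAPX : SpecAPX := by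
  intro G _ _ X K hK hX hXX
  have hX0 : (0 : ℝ) < #X := by exact_mod_cast hX.card_pos
  have hK0 : (0 : ℝ) < K := by linarith
  have hS : ∀ s ∈ pop X K, (#X : ℝ) ≤ 2 * K * rr X s := fun s hs => (Finset.mem_filter.1 hs).2
  -- energy
  have hE : (#X : ℝ) ^ 3 ≤ K * Finset.mulEnergy X X⁻¹ := by
    have h := Finset.le_card_mul_mul_mulEnergy X X⁻¹
    rw [Finset.card_inv] at h
    have h' : (#X : ℝ) ^ 2 * (#X : ℝ) ^ 2 ≤ #(X * X⁻¹) * Finset.mulEnergy X X⁻¹ := by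
      exact_mod_cast h
    have h2 : (#X : ℝ) * (#X : ℝ) ^ 3 ≤ #X * (K * Finset.mulEnergy X X⁻¹) := by
      calc (#X : ℝ) * (#X : ℝ) ^ 3 = (#X : ℝ) ^ 2 * (#X : ℝ) ^ 2 := by ring
        _ ≤ _ := h'
        _ ≤ (K * #X) * Finset.mulEnergy X X⁻¹ :=
            mul_le_mul_of_nonneg_right hXX (Nat.cast_nonneg _)
        _ = _ := by ring
    exact le_of_mul_le_mul_left h2 hX0
  -- pairs with a popular quotient
  have hP : (#X : ℝ) ^ 2 ≤ 2 * K * #((X ×ˢ X).filter fun q => q.1⁻¹ * q.2 ∈ pop X K) := by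
    have h1 : (Finset.mulEnergy X X⁻¹ : ℝ) ≤ ∑ q ∈ X ×ˢ X, (rr X (q.1⁻¹ * q.2) : ℝ) := by
      exact_mod_cast energy_le X
    have h2 : ∀ q ∈ X ×ˢ X, (rr X (q.1⁻¹ * q.2) : ℝ)
        ≤ #X / (2 * K) + if q.1⁻¹ * q.2 ∈ pop X K then (#X : ℝ) else 0 := by
      intro q hq
      rw [Finset.mem_product] at hq
      split_ifs with hc
      · have : rr X (q.1⁻¹ * q.2) ≤ #X := Finset.card_filter_le _ _
        have : (rr X (q.1⁻¹ * q.2) : ℝ) ≤ #X := by exact_mod_cast this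
        have : (0 : ℝ) ≤ #X / (2 * K) := by positivity
        linarith
      · rw [add_zero, le_div_iff₀ (by positivity)]
        by_contra hlt
        refine hc (Finset.mem_filter.2
          ⟨Finset.mul_mem_mul (Finset.inv_mem_inv hq.1) hq.2, ?_⟩)
        push Not at hlt
        linarith
    have h3 : ∑ q ∈ X ×ˢ X, (rr X (q.1⁻¹ * q.2) : ℝ)
        ≤ (#X : ℝ) ^ 2 * (#X / (2 * K))
          + #((X ×ˢ X).filter fun q => q.1⁻¹ * q.2 ∈ pop X K) * #X := by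
      refine (Finset.sum_le_sum h2).trans (le_of_eq ?_)
      rw [Finset.sum_add_distrib, Finset.sum_const, Finset.card_product, ← Finset.sum_filter,
        Finset.sum_const, nsmul_eq_mul, nsmul_eq_mul]
      push_cast
      ring
    have h4 : (#X : ℝ) ^ 3 ≤ K * ((#X : ℝ) ^ 2 * (#X / (2 * K))
          + #((X ×ˢ X).filter fun q => q.1⁻¹ * q.2 ∈ pop X K) * #X) :=
      hE.trans (mul_le_mul_of_nonneg_left (h1.trans h3) hK0.le)
    have h5 : K * ((#X : ℝ) ^ 2 * (#X / (2 * K))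
          + #((X ×ˢ X).filter fun q => q.1⁻¹ * q.2 ∈ pop X K) * #X)
        = (#X : ℝ) ^ 3 / 2 + #X * (K * #((X ×ˢ X).filter fun q => q.1⁻¹ * q.2 ∈ pop X K)) := by
      field_simp
    rw [h5] at h4
    have h6 : (#X : ℝ) * (#X : ℝ) ^ 2
        ≤ #X * (2 * K * #((X ×ˢ X).filter fun q => q.1⁻¹ * q.2 ∈ pop X K)) := by nlinarith
    exact le_of_mul_le_mul_left h6 hX0
  -- a good `u`
  obtain ⟨u, hu, hu'⟩ : ∃ u ∈ X, (#X : ℝ) ≤ 2 * K * #(X.filter fun v => u⁻¹ * v ∈ pop X K) := by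
    by_contra hcon
    push Not at hcon
    have h1 : (#((X ×ˢ X).filter fun q => q.1⁻¹ * q.2 ∈ pop X K) : ℝ)
        = ∑ u ∈ X, (#(X.filter fun v => u⁻¹ * v ∈ pop X K) : ℝ) := by
      rw [Finset.card_filter, Finset.sum_product]
      push_cast
      refine Finset.sum_congr rfl fun u _ => ?_
      rw [Finset.card_filter]
      push_cast
      rfl
    have h2 : ∑ u ∈ X, 2 * K * (#(X.filter fun v => u⁻¹ * v ∈ pop X K) : ℝ)
        < ∑ _u ∈ X, (#X : ℝ) := Finset.sum_lt_sum_of_nonempty hX fun u hu => hcon u hu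
    rw [← Finset.mul_sum, ← h1, Finset.sum_const, nsmul_eq_mul] at h2
    nlinarith
  refine ⟨pop X K, ?_, ?_, ?_, ?_, u, hu, hu'⟩
  · -- `1 ∈ S`
    obtain ⟨x, hx⟩ := hX
    refine Finset.mem_filter.2 ⟨?_, ?_⟩
    · rw [← inv_mul_cancel x]
      exact Finset.mul_mem_mul (Finset.inv_mem_inv hx) hx
    · have : rr X (1 : G) = #X := by
        unfold rr
        rw [Finset.filter_true_of_mem fun u hu => by rw [mul_one]; exact hu]
      rw [this]
      nlinarith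
  · -- symmetric
    have hinv : ∀ s ∈ pop X K, s⁻¹ ∈ pop X K := by
      intro s hs
      obtain ⟨h1, h2⟩ := Finset.mem_filter.1 hs
      refine Finset.mem_filter.2 ⟨?_, by rw [rr_inv]; exact h2⟩
      obtain ⟨a, ha, b, hb, rfl⟩ := Finset.mem_mul.1 h1
      rw [mul_inv_rev]
      exact Finset.mul_mem_mul (Finset.inv_mem_inv hb) (Finset.mem_inv'.1 ha)
    ext s
    rw [Finset.mem_inv']
    exact ⟨fun h => by simpa using hinv _ h, fun h => hinv _ h⟩
  · -- size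
    have h1 : #(X.filter fun v => u⁻¹ * v ∈ pop X K) ≤ #(pop X K) := by
      refine Finset.card_le_card_of_injOn (fun v => u⁻¹ * v) ?_ ?_
      · intro v hv
        exact (Finset.mem_filter.1 (Finset.mem_coe.1 hv)).2
      · intro v _ w _ h
        exact mul_left_cancel h
    have h2 : (#(X.filter fun v => u⁻¹ * v ∈ pop X K) : ℝ) ≤ #(pop X K) := by exact_mod_cast h1
    calc (#X : ℝ) ≤ _ := hu'
      _ ≤ _ := mul_le_mul_of_nonneg_left h2 (by linarith)
  · -- growth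
    intro n
    have hc : ∀ n : ℕ, (#(X * ((pop X K) ^ n * X⁻¹)) : ℝ) ≤ (2 * K ^ 2) ^ n * (K * #X) := by
      intro n
      induction n with
      | zero => simpa using hXX
      | succ n ih =>
        have h1 := card_mul_mul_le X ((pop X K) ^ n * X⁻¹) hK hS
        rw [← mul_assoc (pop X K), ← pow_succ'] at h1
        have h2 : (#(X * ((pop X K) ^ (n + 1) * X⁻¹)) : ℝ) * #X
            ≤ ((2 * K ^ 2) ^ (n + 1) * (K * #X)) * #X := by
          calc (#(X * ((pop X K) ^ (n + 1) * X⁻¹)) : ℝ) * #X ≤ _ := h1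
            _ ≤ 2 * K * ((K * #X) * ((2 * K ^ 2) ^ n * (K * #X))) := by
                refine mul_le_mul_of_nonneg_left ?_ (by linarith)
                exact mul_le_mul hXX ih (Nat.cast_nonneg _) (by positivity)
            _ = ((2 * K ^ 2) ^ (n + 1) * (K * #X)) * #X := by ring
        exact le_of_mul_le_mul_right h2 hX0
    have hmono : ∀ T : Finset G, (#T : ℝ) ≤ #(T * X⁻¹) := by
      intro T
      exact_mod_cast Finset.card_le_card_mul_right (s := T) hX.inv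
    cases n with
    | zero =>
      have : (1 : ℝ) ≤ #X := by exact_mod_cast hX.card_pos
      simpa using this
    | succ n =>
      have h1 := card_mul_le X ((pop X K) ^ n * X⁻¹) hK hS
      rw [← mul_assoc (pop X K), ← pow_succ'] at h1
      have h2 : (#((pop X K) ^ (n + 1) * X⁻¹) : ℝ) * #X ≤ ((2 * K ^ 2) ^ (n + 1) * #X) * #X := by
        calc (#((pop X K) ^ (n + 1) * X⁻¹) : ℝ) * #X ≤ _ := h1
          _ ≤ 2 * K * (#X * ((2 * K ^ 2) ^ n * (K * #X))) := by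
              refine mul_le_mul_of_nonneg_left ?_ (by linarith)
              exact mul_le_mul_of_nonneg_left (hc n) hX0.le
          _ = ((2 * K ^ 2) ^ (n + 1) * #X) * #X := by ring
      exact (hmono _).trans (le_of_mul_le_mul_right h2 hX0)

end MPcb27.LN
end

section
/-!
# MP_cb27ba_nt, project LN: module FLG, flattening in the affine group
-/
set_option autoImplicit false

namespace MPcb27.LN

open Finset
open scoped Pointwise

namespace FLG

section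

variable {G : Type} [Group G] [Fintype G]

theorem sum_left (ν : G → ℝ) (h : G) : ∑ g, ν (h⁻¹ * g) = ∑ g, ν g :=
  Equiv.sum_comp (Equiv.mulLeft h⁻¹) ν

theorem sum_filter_left (ν : G → ℝ) (h : G) (P : G → Prop) [DecidablePred P] :
    ∑ g ∈ univ.filter P, ν (h⁻¹ * g) = ∑ g ∈ univ.filter (fun g => P (h * g)), ν g := by
  refine Finset.sum_equiv (Equiv.mulLeft h⁻¹) ?_ ?_
  · intro g
    simp
  · intro g _
    rfl

theorem prob_conv {μ ν : G → ℝ} (hμ : IsProb μ) (hν : IsProb ν) : IsProb (conv μ ν) := by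
  refine ⟨fun g => sum_nonneg fun h _ => mul_nonneg (hμ.1 h) (hν.1 _), ?_⟩
  unfold conv
  rw [sum_comm]
  calc ∑ h, ∑ g, μ h * ν (h⁻¹ * g) = ∑ h, μ h := by
        refine sum_congr rfl fun h _ => ?_
        rw [← mul_sum, sum_left, hν.2, mul_one]
    _ = 1 := hμ.2

theorem mass_conv {μ ν : G → ℝ} (hμ : IsProb μ) (P : G → Prop) [DecidablePred P] (c : ℝ)
    (h : ∀ h : G, ∑ g ∈ univ.filter (fun g => P (h * g)), ν g ≤ c) :
    ∑ g ∈ univ.filter P, conv μ ν g ≤ c := by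
  unfold conv
  rw [sum_comm]
  calc ∑ h, ∑ g ∈ univ.filter P, μ h * ν (h⁻¹ * g)
      = ∑ h, μ h * ∑ g ∈ univ.filter (fun g => P (h * g)), ν g := by
        refine sum_congr rfl fun h _ => ?_
        rw [← mul_sum, sum_filter_left]
    _ ≤ ∑ h, μ h * c := sum_le_sum fun h' _ => mul_le_mul_of_nonneg_left (h h') (hμ.1 h')
    _ = c := by rw [← sum_mul, hμ.2, one_mul]

theorem l2_conv_le {μ ν : G → ℝ} (hμ : IsProb μ) : l2 (conv μ ν) ≤ l2 ν := by
  unfold l2 conv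
  calc ∑ g, (∑ h, μ h * ν (h⁻¹ * g)) ^ 2 ≤ ∑ g, ∑ h, μ h * ν (h⁻¹ * g) ^ 2 := by
        refine sum_le_sum fun g _ => ?_
        have := Finset.sum_sq_le_sum_mul_sum_of_sq_le_mul univ (r := fun h => μ h * ν (h⁻¹ * g))
          (f := fun h => μ h) (g := fun h => μ h * ν (h⁻¹ * g) ^ 2) (fun h _ => hμ.1 h)
          (fun h _ => mul_nonneg (hμ.1 h) (sq_nonneg _)) (fun h _ => le_of_eq (by ring))
        rwa [hμ.2, one_mul] at this
    _ = ∑ h, μ h * ∑ g, ν g ^ 2 := by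
        rw [sum_comm]
        refine sum_congr rfl fun h _ => ?_
        rw [← mul_sum, sum_left (fun g => ν g ^ 2) h]
    _ = ∑ g, ν g ^ 2 := by rw [← sum_mul, hμ.2, one_mul]

theorem prob_dbl {ν : G → ℝ} (hν : IsProb ν) : ∀ j, IsProb (dbl ν j)
  | 0 => hν
  | j + 1 => prob_conv (prob_dbl hν j) (prob_dbl hν j)

theorem l2_dbl_anti {ν : G → ℝ} (hν : IsProb ν) : Antitone fun j => l2 (dbl ν j) :=
  antitone_nat_of_succ_le fun j => l2_conv_le (prob_dbl hν j)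

omit [Group G] in
theorem l2_le_one {ν : G → ℝ} (hν : IsProb ν) : l2 ν ≤ 1 := by
  calc l2 ν ≤ ∑ g, ν g := by
        refine sum_le_sum fun g _ => ?_
        have h1 : ν g ≤ 1 := by
          rw [← hν.2]
          exact single_le_sum (fun g _ => hν.1 g) (mem_univ g)
        have h2 := hν.1 g
        nlinarith
    _ = 1 := hν.2

end

theorem mass_cover {G α : Type} [Fintype G] [DecidableEq α] (μ : G → ℝ) (hμ : ∀ g, 0 ≤ μ g)
    (Y : Finset G) (L : Finset α) (f : G → α) (hf : ∀ v ∈ Y, f v ∈ L) (c : ℝ)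
    (h : ∀ z ∈ L, ∑ g ∈ univ.filter (fun g => f g = z), μ g ≤ c) :
    ∑ v ∈ Y, μ v ≤ #L * c := by
  rw [← sum_fiberwise_of_maps_to hf]
  calc ∑ z ∈ L, ∑ v ∈ Y.filter (fun v => f v = z), μ v ≤ ∑ z ∈ L, c := by
        refine sum_le_sum fun z hz => (sum_le_sum_of_subset_of_nonneg ?_ ?_).trans (h z hz)
        · exact filter_subset_filter _ (subset_univ _)
        · exact fun g _ _ => hμ g
    _ = #L * c := by rw [sum_const, nsmul_eq_mul]

theorem pig (W : ℕ → ℝ) (J : ℕ) (K : ℝ) (hK : 0 < K) (h0 : W 0 ≤ 1) (hJ : 1 < K ^ J * W J) :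
    ∃ j < J, W j ≤ K * W (j + 1) := by
  by_contra hcon
  push Not at hcon
  have hind : ∀ j ≤ J, K ^ j * W j ≤ W 0 := by
    intro j
    induction j with
    | zero => intro _; simp
    | succ j ih =>
      intro hj
      have h2 := ih (by omega)
      have h3 := hcon j (by omega)
      calc K ^ (j + 1) * W (j + 1) = K ^ j * (K * W (j + 1)) := by ring
        _ ≤ K ^ j * W j := mul_le_mul_of_nonneg_left h3.le (by positivity)
        _ ≤ W 0 := h2
  have := hind J le_rfl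
  linarith

variable {p : ℕ} [Fact p.Prime]

theorem slope_dbl {ν : Aff p → ℝ} (hν : IsProb ν) (c : ℝ)
    (h : ∀ d : (ZMod p)ˣ, ∑ g ∈ univ.filter (fun g : Aff p => g.a = d), ν g ≤ c) :
    ∀ j, ∀ d : (ZMod p)ˣ, ∑ g ∈ univ.filter (fun g : Aff p => g.a = d), dbl ν j g ≤ c
  | 0 => h
  | j + 1 => by
    intro d
    refine mass_conv (prob_dbl hν j) _ c fun k => ?_
    have e : (univ.filter fun g : Aff p => (k * g).a = d) =
        univ.filter fun g : Aff p => g.a = k.a⁻¹ * d := by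
      ext g
      simp [Aff.mul_a, eq_inv_mul_iff_mul_eq]
    rw [e]
    exact slope_dbl hν c h j _

theorem point_dbl {ν : Aff p → ℝ} (hν : IsProb ν) (c : ℝ)
    (h : ∀ x y : ZMod p, ∑ g ∈ univ.filter (fun g : Aff p => g.act x = y), ν g ≤ c) :
    ∀ j, ∀ x y : ZMod p, ∑ g ∈ univ.filter (fun g : Aff p => g.act x = y), dbl ν j g ≤ c
  | 0 => h
  | j + 1 => by
    intro x y
    refine mass_conv (prob_dbl hν j) _ c fun k => ?_
    have e : (univ.filter fun g : Aff p => (k * g).act x = y) =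
        univ.filter fun g : Aff p => g.act x = k⁻¹.act y := by
      ext g
      simp only [mem_filter, mem_univ, true_and, Aff.act_mul]
      exact Aff.act_eq_iff k
    rw [e]
    exact point_dbl hν c h j _ _

end FLG

open FLG in
/-- **FLG** -/
theorem specFLG (hTR : SpecTRG) (hBS : SpecBSGG) (hAP : SpecAPX) (hCL : SpecCLS) : SpecFLG := by
  classical
  intro δ hδ
  obtain ⟨C₁, hBS⟩ := hBS
  -- the number of pivot steps
  obtain ⟨m, hm⟩ : ∃ m : ℕ, 2 / δ < (2 : ℝ) ^ m := pow_unbounded_of_one_lt _ (by norm_num)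
  obtain ⟨C₂, hCL⟩ := hCL m
  -- constants
  obtain ⟨c₀, hc₀⟩ : ∃ c₀ : ℝ, c₀ = C₁ * (2 ^ 36) ^ C₁ := ⟨_, rfl⟩
  have hc₀0 : 0 ≤ c₀ := by rw [hc₀]; positivity
  obtain ⟨c₁, hc₁⟩ : ∃ c₁ : ℝ, c₁ = 2 ^ 27 * c₀ ^ 2 := ⟨_, rfl⟩
  have hc₁0 : 0 ≤ c₁ := by rw [hc₁]; positivity
  obtain ⟨c₂, hc₂⟩ : ∃ c₂ : ℝ, c₂ = 2 ^ 33 * C₂ * (2 ^ 8) ^ C₂ * c₀ ^ (4 + 15 * C₂) := ⟨_, rfl⟩
  have hc₂0 : 0 ≤ c₂ := by rw [hc₂]; positivity
  set E : ℕ := 7 + 8 * C₁ * (4 + 15 * C₂) with hE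
  obtain ⟨J, hJ⟩ := exists_nat_gt (8 * (E : ℝ) / δ)
  have hJ0 : (0 : ℝ) < J := lt_of_le_of_lt (by positivity) hJ
  have hJE : 2 * (E : ℝ) / J ≤ δ / 4 := by
    rw [div_lt_iff₀ hδ] at hJ
    rw [div_le_iff₀ hJ0]
    nlinarith
  have ev : ∀ᶠ x : ℝ in Filter.atTop, c₁ + c₂ ≤ x ^ (δ / 4) :=
    (tendsto_rpow_atTop (by positivity)).eventually_ge_atTop _
  obtain ⟨P, hP⟩ := Filter.eventually_atTop.1 (tendsto_natCast_atTop_atTop.eventually ev)
  refine ⟨J, P, ?_⟩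
  intro p _ hp ν hν hνs hνp
  have hpp : p.Prime := Fact.out
  have hp1 : (1 : ℝ) < p := by exact_mod_cast hpp.one_lt
  have hp0 : (0 : ℝ) < p := by linarith
  have hQp := hP p hp
  have hrp : ∀ e : ℝ, (0 : ℝ) < (p : ℝ) ^ e := fun e => Real.rpow_pos_of_pos hp0 _
  have hpp4 : (p : ℝ) ^ (δ / 4) * (p : ℝ) ^ (δ / 4) = (p : ℝ) ^ (δ / 2) := by
    rw [← Real.rpow_add hp0]
    congr 1
    ring
  have hpneg : (p : ℝ) ^ (-δ) * (p : ℝ) ^ δ = 1 := by
    rw [← Real.rpow_add hp0, neg_add_cancel, Real.rpow_zero]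
  -- `δ ≤ 1`
  have hδ1 : δ ≤ 1 := by
    have h1 : (1 : ℝ) ≤ #(univ : Finset (ZMod p)ˣ) * (p : ℝ) ^ (-δ) := by
      rw [← hν.2]
      exact mass_cover ν hν.1 univ univ (fun g => g.a) (fun _ _ => mem_univ _) _
        fun z _ => hνs z
    have h2 : (#(univ : Finset (ZMod p)ˣ) : ℝ) ≤ p := by
      rw [card_univ]
      exact_mod_cast (Nat.le_of_eq (ZMod.card_units p)).trans (Nat.sub_le p 1)
    have h3 : (p : ℝ) ^ δ ≤ (p : ℝ) ^ (1 : ℝ) := by
      rw [Real.rpow_one]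
      calc (p : ℝ) ^ δ = 1 * (p : ℝ) ^ δ := (one_mul _).symm
        _ ≤ (p * (p : ℝ) ^ (-δ)) * (p : ℝ) ^ δ :=
            mul_le_mul_of_nonneg_right (h1.trans (mul_le_mul_of_nonneg_right h2 (hrp _).le))
              (hrp _).le
        _ = p := by rw [mul_assoc, hpneg, mul_one]
    exact (Real.rpow_le_rpow_left_iff hp1).mp h3
  by_contra hcon
  push Not at hcon
  -- the parameter K
  set K : ℝ := (p : ℝ) ^ (2 / (J : ℝ)) with hK
  have hK1 : 1 ≤ K := Real.one_le_rpow hp1.le (by positivity)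
  have hK0 : 0 < K := by linarith
  have hKJ : K ^ J = (p : ℝ) ^ (2 : ℝ) := by
    rw [hK, ← Real.rpow_natCast, ← Real.rpow_mul hp0.le, div_mul_cancel₀ _ hJ0.ne']
  have hKpow : ∀ j : ℕ, j ≤ E → K ^ j ≤ (p : ℝ) ^ (δ / 4) := by
    intro j hj
    rw [hK, ← Real.rpow_natCast, ← Real.rpow_mul hp0.le]
    apply Real.rpow_le_rpow_of_exponent_le hp1.le
    refine le_trans ?_ hJE
    rw [div_mul_eq_mul_div]
    apply div_le_div_of_nonneg_right _ hJ0.le
    have : (j : ℝ) ≤ E := by exact_mod_cast hj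
    linarith
  obtain ⟨j, hjJ, hj⟩ := pig (fun j => l2 (dbl ν j)) J K hK0 (l2_le_one hν) (by
    rw [hKJ]
    calc (1 : ℝ) = (p : ℝ) ^ (2 : ℝ) * (p : ℝ) ^ (-2 : ℝ) := by
          rw [← Real.rpow_add hp0, add_neg_cancel, Real.rpow_zero]
      _ < (p : ℝ) ^ (2 : ℝ) * l2 (dbl ν J) := by
          apply mul_lt_mul_of_pos_left _ (hrp _)
          refine lt_of_le_of_lt ?_ hcon
          apply Real.rpow_le_rpow_of_exponent_le hp1.le
          linarith)
  have hWbig : (p : ℝ) ^ (-(1 + δ / 2)) < l2 (dbl ν j) :=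
    lt_of_lt_of_le hcon (l2_dbl_anti hν hjJ.le)
  have hμ := prob_dbl hν j
  have hμs := slope_dbl hν _ hνs j
  have hμp := point_dbl hν _ hνp j
  set μ : Aff p → ℝ := dbl ν j with hμdef
  set W : ℝ := l2 μ with hW
  have hW0 : 0 < W := lt_trans (hrp _) hWbig
  -- the level set
  obtain ⟨X, hX1, hX2, hX3⟩ := hTR (Aff p) μ K hK1 hμ hj
  rw [← hW] at hX1 hX3
  have hXn : X.Nonempty := by
    rw [nonempty_iff_ne_empty]
    intro h
    rw [h, card_empty, Nat.cast_zero, zero_mul] at hX3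
    norm_num at hX3
  have hXc : (0 : ℝ) < #X := by exact_mod_cast hXn.card_pos
  have hXW : (#X : ℝ) * W ≤ 32 * K := by
    calc (#X : ℝ) * W = ∑ x ∈ X, W := by rw [sum_const, nsmul_eq_mul]
      _ ≤ ∑ x ∈ X, 32 * K * μ x := sum_le_sum hX1
      _ = 32 * K * ∑ x ∈ X, μ x := (mul_sum ..).symm
      _ ≤ 32 * K * 1 := by
          apply mul_le_mul_of_nonneg_left _ (by positivity)
          rw [← hμ.2]
          exact sum_le_sum_of_subset_of_nonneg (subset_univ _) fun g _ _ => hμ.1 g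
      _ = 32 * K := mul_one _
  have hXW1 : (1 : ℝ) ≤ 2 ^ 21 * K ^ 5 * (#X * W) := by
    have hKK : (1 : ℝ) ≤ 2 ^ 21 * K ^ 5 := by
      have : (1 : ℝ) ≤ K ^ 5 := one_le_pow₀ hK1
      linarith
    have ht0 : (0 : ℝ) < #X * W := by positivity
    rcases le_total (#X * W : ℝ) 1 with h | h
    · refine hX3.trans (mul_le_mul_of_nonneg_left ?_ (by positivity))
      calc (#X * W : ℝ) ^ 3 ≤ (#X * W) ^ 1 := pow_le_pow_of_le_one ht0.le h (by norm_num)
        _ = #X * W := pow_one _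
    · nlinarith
  -- Balog-Szemerédi-Gowers
  have hK8 : (1 : ℝ) ≤ 2 ^ 36 * K ^ 8 := by
    have : (1 : ℝ) ≤ K ^ 8 := one_le_pow₀ hK1
    linarith
  obtain ⟨X', hX'X, hXX', hXX⟩ := hBS (Aff p) X (2 ^ 36 * K ^ 8) hK8 hXn hX2
  set K₂ : ℝ := C₁ * (2 ^ 36 * K ^ 8) ^ C₁ with hK₂
  have hK₂0 : 0 ≤ K₂ := by positivity
  have hX'c : (0 : ℝ) < #X' := by
    rcases Nat.eq_zero_or_pos (#X') with h | h
    · rw [h, Nat.cast_zero, mul_zero] at hXX'
      linarith
    · exact_mod_cast h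
  have hX'n : X'.Nonempty := card_pos.mp (by exact_mod_cast hX'c)
  have hX'le : (#X' : ℝ) ≤ #X := by exact_mod_cast card_le_card hX'X
  have hK₂1 : 1 ≤ K₂ := by
    by_contra h
    push Not at h
    have : K₂ * #X' < 1 * #X' := mul_lt_mul_of_pos_right h hX'c
    linarith
  have hK₂e : K₂ = c₀ * K ^ (8 * C₁) := by
    rw [hK₂, hc₀, mul_pow, pow_mul K 8 C₁, mul_assoc]
  -- the approximate subgroup
  obtain ⟨S, hS1, hSi, hSX, hSn, u, -, hu⟩ := hAP (Aff p) X' K₂ hK₂1 hX'n hXX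
  set Y := X'.filter (fun v => u⁻¹ * v ∈ S) with hY
  set M : ℝ := ∑ v ∈ Y, μ v with hM
  have hYM : (#Y : ℝ) * W ≤ 32 * K * M := by
    calc (#Y : ℝ) * W = ∑ x ∈ Y, W := by rw [sum_const, nsmul_eq_mul]
      _ ≤ ∑ x ∈ Y, 32 * K * μ x :=
          sum_le_sum fun x hx => hX1 x (hX'X (mem_filter.mp hx).1)
      _ = 32 * K * M := (mul_sum ..).symm
  set E₁ : ℝ := 2 ^ 27 * K ^ 6 * K₂ ^ 2 with hE₁
  have hE₁0 : 0 < E₁ := by positivity
  have hM1 : 1 ≤ E₁ * M := by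
    calc (1 : ℝ) ≤ 2 ^ 21 * K ^ 5 * (#X * W) := hXW1
      _ ≤ 2 ^ 21 * K ^ 5 * ((K₂ * #X') * W) := by
          apply mul_le_mul_of_nonneg_left _ (by positivity)
          exact mul_le_mul_of_nonneg_right hXX' hW0.le
      _ ≤ 2 ^ 21 * K ^ 5 * ((K₂ * (2 * K₂ * #Y)) * W) := by
          apply mul_le_mul_of_nonneg_left _ (by positivity)
          apply mul_le_mul_of_nonneg_right _ hW0.le
          exact mul_le_mul_of_nonneg_left hu hK₂0
      _ = 2 ^ 22 * K ^ 5 * K₂ ^ 2 * (#Y * W) := by ring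
      _ ≤ 2 ^ 22 * K ^ 5 * K₂ ^ 2 * (32 * K * M) :=
          mul_le_mul_of_nonneg_left hYM (by positivity)
      _ = E₁ * M := by rw [hE₁]; ring
  -- the slopes
  set Λ := S.image Aff.a with hΛ
  have hMΛ : M ≤ #Λ * (p : ℝ) ^ (-δ) := by
    refine mass_cover μ hμ.1 Y Λ (fun v => (u⁻¹ * v).a) (fun v hv => ?_) _ fun z _ => ?_
    · exact mem_image_of_mem _ (mem_filter.mp hv).2
    · have e : (univ.filter fun g : Aff p => (u⁻¹ * g).a = z) =
          univ.filter fun g : Aff p => g.a = u.a * z := by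
        ext g
        simp [Aff.mul_a, inv_mul_eq_iff_eq_mul]
      rw [e]
      exact hμs _
  have hΛ1 : (p : ℝ) ^ δ ≤ E₁ * #Λ := by
    have h1 : 1 ≤ E₁ * (#Λ * (p : ℝ) ^ (-δ)) := hM1.trans (mul_le_mul_of_nonneg_left hMΛ hE₁0.le)
    calc (p : ℝ) ^ δ = 1 * (p : ℝ) ^ δ := (one_mul _).symm
      _ ≤ E₁ * (#Λ * (p : ℝ) ^ (-δ)) * (p : ℝ) ^ δ := mul_le_mul_of_nonneg_right h1 (hrp _).le
      _ = E₁ * #Λ * ((p : ℝ) ^ (-δ) * (p : ℝ) ^ δ) := by ring
      _ = E₁ * #Λ := by rw [hpneg, mul_one]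
  -- sizes
  have hE₁p : E₁ ≤ (p : ℝ) ^ (δ / 2) := by
    have e : E₁ = c₁ * K ^ (6 + 16 * C₁) := by
      rw [hE₁, hK₂e, hc₁, pow_add, mul_pow, ← pow_mul, show 8 * C₁ * 2 = 16 * C₁ by ring]
      ring
    rw [e, ← hpp4]
    refine mul_le_mul (by linarith) (hKpow _ ?_) (by positivity) (hrp _).le
    rw [hE]
    nlinarith [Nat.zero_le (C₁ * C₂)]
  set K₄ : ℝ := (2 * K₂ ^ 2) ^ 7 * (2 * K₂) with hK₄
  have hK₄1 : 1 ≤ K₄ := by
    have h1 : (1 : ℝ) ≤ 2 * K₂ ^ 2 := by nlinarith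
    have h2 : (1 : ℝ) ≤ (2 * K₂ ^ 2) ^ 7 := one_le_pow₀ h1
    nlinarith
  have hK₄0 : 0 < K₄ := by linarith
  set R : ℝ := E₁ * (64 * K * K₂ ^ 2) * (C₂ * K₄ ^ C₂) with hR
  have hRp : R ≤ (p : ℝ) ^ (δ / 2) := by
    have e : R = c₂ * K ^ E := by
      have e1 : K₄ = 2 ^ 8 * K₂ ^ 15 := by rw [hK₄]; ring
      have e2 : R = 2 ^ 33 * C₂ * (2 ^ 8) ^ C₂ * (K₂ ^ (4 + 15 * C₂)) * K ^ 7 := by
        rw [hR, e1, hE₁, mul_pow (2 ^ 8 : ℝ) (K₂ ^ 15) C₂, ← pow_mul, pow_add]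
        ring
      rw [e2, hK₂e, mul_pow, ← pow_mul K, hc₂, hE, pow_add K 7]
      generalize ((2 : ℝ) ^ 8) ^ C₂ = t
      ring
    rw [e, ← hpp4]
    exact mul_le_mul (by linarith) (hKpow _ le_rfl) (by positivity) (hrp _).le
  have hLE : E₁ * (C₂ * K₄ ^ C₂) ≤ (p : ℝ) ^ (δ / 2) := by
    refine le_trans ?_ hRp
    have h1 : (1 : ℝ) ≤ 64 * K * K₂ ^ 2 := by
      have h2 : (1 : ℝ) ≤ K₂ ^ 2 := one_le_pow₀ hK₂1
      nlinarith
    calc E₁ * (C₂ * K₄ ^ C₂) = E₁ * 1 * (C₂ * K₄ ^ C₂) := by ring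
      _ ≤ E₁ * (64 * K * K₂ ^ 2) * (C₂ * K₄ ^ C₂) :=
          mul_le_mul_of_nonneg_right (mul_le_mul_of_nonneg_left h1 hE₁0.le) (by positivity)
  have hΛhalf : (p : ℝ) ^ (δ / 2) ≤ #Λ := by
    have h1 : (p : ℝ) ^ (δ / 2) * (p : ℝ) ^ (δ / 2) ≤ (p : ℝ) ^ (δ / 2) * #Λ := by
      rw [← Real.rpow_add hp0, add_halves]
      exact hΛ1.trans (mul_le_mul_of_nonneg_right hE₁p (Nat.cast_nonneg _))
    exact le_of_mul_le_mul_left h1 (hrp _)
  have hΛ2 : 2 ≤ #Λ := by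
    have h1 : (1 : ℝ) < (p : ℝ) ^ (δ / 2) := Real.one_lt_rpow hp1 (by positivity)
    have h2 : (1 : ℝ) < #Λ := lt_of_lt_of_le h1 hΛhalf
    have h3 : 1 < #Λ := by exact_mod_cast h2
    omega
  have hΛp : p < #Λ ^ 2 ^ m := by
    have h1 : (p : ℝ) < (#Λ : ℝ) ^ 2 ^ m := by
      calc (p : ℝ) = (p : ℝ) ^ (1 : ℝ) := (Real.rpow_one _).symm
        _ < (p : ℝ) ^ (δ / 2 * (2 ^ m : ℕ)) := by
            apply Real.rpow_lt_rpow_of_exponent_lt hp1
            push_cast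
            rw [div_lt_iff₀ hδ] at hm
            linarith
        _ = ((p : ℝ) ^ (δ / 2)) ^ 2 ^ m := by rw [Real.rpow_mul hp0.le, Real.rpow_natCast]
        _ ≤ (#Λ : ℝ) ^ 2 ^ m := pow_le_pow_left₀ (hrp _).le hΛhalf _
    exact_mod_cast h1
  have hS7 : (#(S ^ 7) : ℝ) ≤ K₄ * #S := by
    calc (#(S ^ 7) : ℝ) ≤ (2 * K₂ ^ 2) ^ 7 * #X' := hSn 7
      _ ≤ (2 * K₂ ^ 2) ^ 7 * (2 * K₂ * #S) := mul_le_mul_of_nonneg_left hSX (by positivity)
      _ = K₄ * #S := by rw [hK₄]; ring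
  have hS1' : (#S : ℝ) ≤ 2 * K₂ ^ 2 * #X' := by
    have := hSn 1
    simpa using this
  rcases hCL p S K₄ hK₄1 hS1 hSi hS7 hΛ2 hΛp with ⟨x, hx⟩ | h
  · -- one point has a small orbit
    have h1 : M ≤ #(S.image fun g => g.act x) * (p : ℝ) ^ (-δ) := by
      refine mass_cover μ hμ.1 Y _ (fun v => (u⁻¹ * v).act x) (fun v hv => ?_) _ fun z _ => ?_
      · exact mem_image_of_mem (fun g : Aff p => g.act x) (mem_filter.mp hv).2
      · have e : (univ.filter fun g : Aff p => (u⁻¹ * g).act x = z) =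
            univ.filter fun g : Aff p => g.act x = u.act z := by
          ext g
          simp only [mem_filter, mem_univ, true_and, Aff.act_mul]
          rw [Aff.act_eq_iff, inv_inv]
        rw [e]
        exact hμp _ _
    have h2 : (p : ℝ) ^ δ ≤ (p : ℝ) ^ (δ / 2) := by
      calc (p : ℝ) ^ δ = 1 * (p : ℝ) ^ δ := (one_mul _).symm
        _ ≤ E₁ * M * (p : ℝ) ^ δ := mul_le_mul_of_nonneg_right hM1 (hrp _).le
        _ ≤ E₁ * (C₂ * K₄ ^ C₂ * (p : ℝ) ^ (-δ)) * (p : ℝ) ^ δ := by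
            apply mul_le_mul_of_nonneg_right _ (hrp _).le
            apply mul_le_mul_of_nonneg_left _ hE₁0.le
            exact h1.trans (mul_le_mul_of_nonneg_right hx (hrp _).le)
        _ = E₁ * (C₂ * K₄ ^ C₂) * ((p : ℝ) ^ (-δ) * (p : ℝ) ^ δ) := by ring
        _ = E₁ * (C₂ * K₄ ^ C₂) := by rw [hpneg, mul_one]
        _ ≤ (p : ℝ) ^ (δ / 2) := hLE
    have h3 := (Real.rpow_le_rpow_left_iff hp1).mp h2
    linarith
  · -- many elements
    have h1 : (p : ℝ) * (p : ℝ) ^ δ * W ≤ (p : ℝ) ^ (δ / 2) := by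
      calc (p : ℝ) * (p : ℝ) ^ δ * W ≤ p * (E₁ * #Λ) * W := by
            apply mul_le_mul_of_nonneg_right _ hW0.le
            exact mul_le_mul_of_nonneg_left hΛ1 hp0.le
        _ = E₁ * ((p * #Λ) * W) := by ring
        _ ≤ E₁ * ((C₂ * K₄ ^ C₂ * #S) * W) := by
            apply mul_le_mul_of_nonneg_left _ hE₁0.le
            exact mul_le_mul_of_nonneg_right h hW0.le
        _ ≤ E₁ * ((C₂ * K₄ ^ C₂ * (2 * K₂ ^ 2 * #X)) * W) := by
            apply mul_le_mul_of_nonneg_left _ hE₁0.le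
            apply mul_le_mul_of_nonneg_right _ hW0.le
            apply mul_le_mul_of_nonneg_left _ (by positivity)
            exact hS1'.trans (mul_le_mul_of_nonneg_left hX'le (by positivity))
        _ = E₁ * (C₂ * K₄ ^ C₂) * (2 * K₂ ^ 2) * (#X * W) := by ring
        _ ≤ E₁ * (C₂ * K₄ ^ C₂) * (2 * K₂ ^ 2) * (32 * K) :=
            mul_le_mul_of_nonneg_left hXW (by positivity)
        _ = R := by rw [hR]; ring
        _ ≤ (p : ℝ) ^ (δ / 2) := hRp
    have h2 : (p : ℝ) * (p : ℝ) ^ δ * (p : ℝ) ^ (-(1 + δ / 2)) = (p : ℝ) ^ (δ / 2) := by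
      calc (p : ℝ) * (p : ℝ) ^ δ * (p : ℝ) ^ (-(1 + δ / 2))
          = (p : ℝ) ^ (1 : ℝ) * (p : ℝ) ^ δ * (p : ℝ) ^ (-(1 + δ / 2)) := by rw [Real.rpow_one]
        _ = (p : ℝ) ^ (δ / 2) := by
            rw [← Real.rpow_add hp0, ← Real.rpow_add hp0]
            congr 1
            ring
    have h3 : (p : ℝ) * (p : ℝ) ^ δ * (p : ℝ) ^ (-(1 + δ / 2)) < (p : ℝ) * (p : ℝ) ^ δ * W :=
      mul_lt_mul_of_pos_left hWbig (mul_pos hp0 (hrp _))
    linarith

end MPcb27.LN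
end

section
/-!
# MP_cb27ba_nt, module ITR of the project LN: iteration of Cauchy-Schwarz
-/
set_option autoImplicit false

namespace MPcb27.LN

open Finset

section

variable {G : Type} [Group G] [Fintype G]

theorem isSymm_conv {μ : G → ℝ} (h : IsSymm μ) : IsSymm (conv μ μ) := by
  intro g
  unfold conv
  refine Fintype.sum_equiv (Equiv.mulLeft g) _ _ fun k => ?_
  rw [Equiv.coe_mulLeft, mul_inv_rev, mul_assoc, inv_mul_cancel, mul_one, h k, mul_comm,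
    ← mul_inv_rev, h (g * k)]

theorem dbl_succ' (μ : G → ℝ) (j : ℕ) : dbl μ (j + 1) = dbl (conv μ μ) j := by
  induction j with
  | zero => rfl
  | succ j ih =>
    change conv (dbl μ (j + 1)) (dbl μ (j + 1)) = conv (dbl (conv μ μ) j) (dbl (conv μ μ) j)
    rw [ih]

end

variable {p : ℕ} [Fact p.Prime]

/-- `g` as a permutation -/
def Aff.perm (g : Aff p) : Equiv.Perm (ZMod p) where
  toFun := g.act
  invFun := g⁻¹.act
  left_inv := g.act_inv_act
  right_inv := g.act_act_inv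

/-- `T_μ f` -/
noncomputable def Tf (μ : Aff p → ℝ) (f : ZMod p → ℝ) (x : ZMod p) : ℝ :=
  ∑ g, μ g * f (g⁻¹.act x)

theorem QF_eq (μ : Aff p → ℝ) (f : ZMod p → ℝ) : QF μ f = ∑ x, Tf μ f x * f x := by
  unfold QF Tf
  simp only [Finset.mul_sum, Finset.sum_mul]
  rw [Finset.sum_comm]
  refine Finset.sum_congr rfl fun x _ => Finset.sum_congr rfl fun g _ => ?_
  ring

theorem sum_Tf_sq {μ : Aff p → ℝ} (hμ : IsSymm μ) (f : ZMod p → ℝ) :
    ∑ x, Tf μ f x ^ 2 = QF (conv μ μ) f := by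
  have h1 : ∑ x, Tf μ f x ^ 2
      = ∑ h, ∑ g, μ h * μ g * ∑ y, f (g⁻¹.act (h.act y)) * f y := by
    have : ∀ x, Tf μ f x ^ 2 = ∑ h, ∑ g, μ h * μ g * (f (g⁻¹.act x) * f (h⁻¹.act x)) := by
      intro x
      unfold Tf
      rw [sq, Finset.sum_mul_sum]
      refine Finset.sum_congr rfl fun h _ => Finset.sum_congr rfl fun g _ => ?_
      ring
    simp only [this]
    rw [Finset.sum_comm]
    refine Finset.sum_congr rfl fun h _ => ?_
    rw [Finset.sum_comm]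
    refine Finset.sum_congr rfl fun g _ => ?_
    rw [Finset.mul_sum]
    refine (Fintype.sum_equiv (Aff.perm h) _ _ fun y => ?_).symm
    change _ = μ h * μ g * (f (g⁻¹.act (h.act y)) * f (h⁻¹.act (h.act y)))
    rw [Aff.act_inv_act]
  have h2 : QF (conv μ μ) f
      = ∑ h, ∑ g, μ h * μ g * ∑ y, f (g⁻¹.act (h.act y)) * f y := by
    unfold QF conv
    simp only [Finset.sum_mul]
    rw [Finset.sum_comm]
    refine Fintype.sum_equiv (Equiv.inv (Aff p)) _ _ fun h => ?_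
    refine Fintype.sum_equiv (Equiv.mulLeft h⁻¹) _ _ fun g => ?_
    rw [Equiv.coe_mulLeft, Equiv.inv_apply, hμ h]
    congr 1
    refine Finset.sum_congr rfl fun y _ => ?_
    rw [mul_inv_rev, inv_inv, Aff.act_mul, Aff.act_act_inv]
  rw [h1, h2]

theorem QF_sq_le {μ : Aff p → ℝ} (hμ : IsSymm μ) (f : ZMod p → ℝ) :
    QF μ f ^ 2 ≤ QF (conv μ μ) f * ∑ x, f x ^ 2 := by
  rw [← sum_Tf_sq hμ, QF_eq]
  exact Finset.sum_mul_sq_le_sq_mul_sq _ _ _

theorem specITR : SpecITR := by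
  intro p _ ν f hν j
  induction j generalizing ν with
  | zero => simp [dbl]
  | succ j ih =>
    rw [dbl_succ']
    have hN : (0 : ℝ) ≤ ∑ x, f x ^ 2 := Finset.sum_nonneg fun x _ => sq_nonneg _
    calc QF ν f ^ 2 ^ (j + 1) = (QF ν f ^ 2) ^ 2 ^ j := by rw [← pow_mul, pow_succ' 2 j]
      _ ≤ (QF (conv ν ν) f * ∑ x, f x ^ 2) ^ 2 ^ j :=
          pow_le_pow_left₀ (sq_nonneg _) (QF_sq_le hν f) _
      _ = QF (conv ν ν) f ^ 2 ^ j * (∑ x, f x ^ 2) ^ 2 ^ j := mul_pow _ _ _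
      _ ≤ QF (dbl (conv ν ν) j) f * (∑ x, f x ^ 2) ^ (2 ^ j - 1) * (∑ x, f x ^ 2) ^ 2 ^ j :=
          mul_le_mul_of_nonneg_right (ih (conv ν ν) (isSymm_conv hν)) (pow_nonneg hN _)
      _ = QF (dbl (conv ν ν) j) f * (∑ x, f x ^ 2) ^ (2 ^ (j + 1) - 1) := by
          rw [mul_assoc, ← pow_add]
          congr 2
          have : 1 ≤ 2 ^ j := Nat.one_le_two_pow
          rw [pow_succ]
          omega

end MPcb27.LN
end

section
/-!
# MP_cb27ba_nt, module OPL of the project LN: the affine group is sharply 2-transitive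
-/
set_option autoImplicit false

namespace MPcb27.LN

open Finset

variable {p : ℕ} [Fact p.Prime]

theorem sum_aff (F : Aff p → ℝ) :
    ∑ g, F g = ∑ a : (ZMod p)ˣ, ∑ b : ZMod p, F ⟨a, b⟩ := by
  rw [← Fintype.sum_prod_type' (f := fun a b => F ⟨a, b⟩)]
  exact Fintype.sum_equiv Aff.toProd _ _ fun g => rfl

theorem sum_units (h : ZMod p → ℝ) {c : ZMod p} (hc : c ≠ 0) :
    ∑ a : (ZMod p)ˣ, h (a * c) = ∑ u, h u - h 0 := by
  have h1 : ∑ a : (ZMod p)ˣ, h (a * c) = ∑ a : (ZMod p)ˣ, h a :=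
    Fintype.sum_equiv (Equiv.mulRight (Units.mk0 c hc)) _ _ fun a => by simp
  have h2 : ∑ a : (ZMod p)ˣ, h a = ∑ x ∈ univ.erase (0 : ZMod p), h x := by
    refine Finset.sum_bij (fun a _ => (a : ZMod p)) ?_ ?_ ?_ ?_
    · intro a _
      simp
    · intro a _ b _ h
      exact Units.ext h
    · intro x hx
      exact ⟨Units.mk0 x (ne_of_mem_erase hx), mem_univ _, rfl⟩
    · intro a _
      rfl
  rw [h1, h2, eq_sub_iff_add_eq, Finset.sum_erase_add _ _ (mem_univ _)]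

theorem pair_diag (f : ZMod p → ℝ) (x : ZMod p) :
    ∑ g : Aff p, f (g.act x) * f (g.act x) = ((p : ℝ) - 1) * ∑ z, f z ^ 2 := by
  rw [sum_aff]
  have h1 : ∀ a : (ZMod p)ˣ, ∑ b : ZMod p,
      f ((⟨a, b⟩ : Aff p).act x) * f ((⟨a, b⟩ : Aff p).act x) = ∑ z, f z ^ 2 := by
    intro a
    refine Fintype.sum_equiv (Equiv.addLeft ((a : ZMod p) * x)) _ _ fun b => ?_
    rw [Equiv.coe_addLeft, Aff.act_def, sq]
  rw [sum_congr rfl fun a _ => h1 a, sum_const, nsmul_eq_mul, card_univ, ZMod.card_units]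
  congr 1
  have : 1 ≤ p := (Fact.out : p.Prime).one_le
  push_cast [Nat.cast_sub this]
  ring

theorem pair_off (f : ZMod p → ℝ) {x y : ZMod p} (hxy : x ≠ y) :
    ∑ g : Aff p, f (g.act x) * f (g.act y) = (∑ z, f z) ^ 2 - ∑ z, f z ^ 2 := by
  rw [sum_aff]
  have h1 : ∀ a : (ZMod p)ˣ, ∑ b : ZMod p,
      f ((⟨a, b⟩ : Aff p).act x) * f ((⟨a, b⟩ : Aff p).act y) =
        ∑ b : ZMod p, f b * f (b + a * (y - x)) := by
    intro a
    refine Fintype.sum_equiv (Equiv.addLeft ((a : ZMod p) * x)) _ _ fun b => ?_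
    rw [Equiv.coe_addLeft, Aff.act_def, Aff.act_def]
    congr 2
    ring
  rw [sum_congr rfl fun a _ => h1 a, sum_comm]
  have h2 : ∀ b : ZMod p, ∑ a : (ZMod p)ˣ, f b * f (b + a * (y - x)) =
      f b * (∑ z, f z) - f b ^ 2 := by
    intro b
    rw [← mul_sum, sum_units (fun u => f (b + u)) (sub_ne_zero.2 hxy.symm), add_zero,
      Fintype.sum_equiv (Equiv.addLeft b) (fun u => f (b + u)) f fun u => rfl]
    ring
  rw [sum_congr rfl fun b _ => h2 b, sum_sub_distrib, ← sum_mul, sq]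

theorem sum_corr (f : ZMod p → ℝ) (h0 : ∑ x, f x = 0) :
    ∑ g : Aff p, (∑ x, f (g⁻¹.act x) * f x) ^ 2 = p * (∑ x, f x ^ 2) ^ 2 := by
  set N : ℝ := ∑ x, f x ^ 2 with hN
  have h1 : ∑ g : Aff p, (∑ x, f (g⁻¹.act x) * f x) ^ 2 =
      ∑ x, ∑ y, f x * f y * ∑ g : Aff p, f (g.act x) * f (g.act y) := by
    have h2 : ∑ g : Aff p, (∑ x, f (g⁻¹.act x) * f x) ^ 2 =
        ∑ g : Aff p, (∑ x, f (g.act x) * f x) ^ 2 :=
      Fintype.sum_equiv (Equiv.inv (Aff p)) _ _ fun g => by simp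
    rw [h2]
    have h3 : ∀ g : Aff p, (∑ x, f (g.act x) * f x) ^ 2 =
        ∑ x, ∑ y, f x * f y * (f (g.act x) * f (g.act y)) := by
      intro g
      rw [sq, sum_mul_sum]
      refine sum_congr rfl fun x _ => sum_congr rfl fun y _ => ?_
      ring
    rw [sum_congr rfl fun g _ => h3 g, sum_comm]
    refine sum_congr rfl fun x _ => ?_
    rw [sum_comm]
    refine sum_congr rfl fun y _ => ?_
    rw [mul_sum]
  have h4 : ∀ x y : ZMod p, ∑ g : Aff p, f (g.act x) * f (g.act y) =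
      -N + if y = x then (p : ℝ) * N else 0 := by
    intro x y
    split_ifs with h
    · subst h
      rw [pair_diag]
      ring
    · rw [pair_off f (Ne.symm h), h0]
      ring
  rw [h1]
  simp only [h4, mul_add, mul_ite, mul_zero, sum_add_distrib, sum_ite_eq', mem_univ, if_true]
  have h5 : ∑ x, ∑ y, f x * f y * -N = 0 := by
    have h6 : ∀ x, ∑ y, f x * f y * -N = f x * -N * ∑ y, f y := by
      intro x
      rw [mul_sum]
      exact sum_congr rfl fun y _ => by ring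
    rw [sum_congr rfl fun x _ => h6 x]
    simp only [h0, mul_zero, sum_const_zero]
  rw [h5, zero_add]
  have h7 : ∀ x, f x * f x * ((p : ℝ) * N) = (p * N) * f x ^ 2 := fun x => by ring
  rw [sum_congr rfl fun x _ => h7 x, ← mul_sum]
  ring

theorem specOPL : SpecOPL := by
  intro p _ μ f h0
  unfold QF l2
  calc (∑ g, μ g * ∑ x, f (g⁻¹.act x) * f x) ^ 2
      ≤ (∑ g, μ g ^ 2) * ∑ g : Aff p, (∑ x, f (g⁻¹.act x) * f x) ^ 2 :=
        sum_mul_sq_le_sq_mul_sq _ _ _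
    _ = _ := by
        rw [sum_corr f h0]
        ring

end MPcb27.LN
end
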