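import Pool.Agent.Lib.MP_cb27ba_nt.LN.Spec

/-!
# MP_cb27ba_nt, project LN: TRG, truncation of a probability measure on a finite group
-/

set_option autoImplicit false

namespace MPcb27.LN

open Finset

namespace TRG

variable {G : Type} [Group G] [Fintype G] [DecidableEq G]

/-- the four-linear form over `x y = z w` -/
def F (a b c d : G → ℝ) : ℝ :=
  ∑ q : (G × G) × (G × G), if q.1.1 * q.1.2 = q.2.1 * q.2.2 then
    a q.1.1 * b q.1.2 * c q.2.1 * d q.2.2 else 0

theorem F_swap (a b c d : G → ℝ) : F a b c d = F c d a b := by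
  unfold F
  refine Fintype.sum_equiv (Equiv.prodComm (G × G) (G × G)) _ _ fun q => ?_
  simp only [Equiv.prodComm_apply, Prod.fst_swap, Prod.snd_swap]
  by_cases h : q.1.1 * q.1.2 = q.2.1 * q.2.2
  · rw [if_pos h, if_pos h.symm]; ring
  · rw [if_neg h, if_neg fun h' => h h'.symm]

/-- the inverse of a quadruple -/
def invq : ((G × G) × (G × G)) ≃ ((G × G) × (G × G)) where
  toFun q := ((q.1.2⁻¹, q.1.1⁻¹), (q.2.2⁻¹, q.2.1⁻¹))
  invFun q := ((q.1.2⁻¹, q.1.1⁻¹), (q.2.2⁻¹, q.2.1⁻¹))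
  left_inv q := by simp
  right_inv q := by simp

theorem F_inv (a b c d : G → ℝ) :
    F a b c d = F (fun x => b x⁻¹) (fun x => a x⁻¹) (fun x => d x⁻¹) (fun x => c x⁻¹) := by
  unfold F
  refine Fintype.sum_equiv invq _ _ fun q => ?_
  simp only [invq, Equiv.coe_fn_mk, inv_inv]
  by_cases h : q.1.1 * q.1.2 = q.2.1 * q.2.2
  · rw [if_pos h, if_pos (by rw [← mul_inv_rev, ← mul_inv_rev, h])]; ring
  · rw [if_neg h, if_neg fun h' => h ?_]
    rw [← mul_inv_rev, ← mul_inv_rev] at h'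
    exact inv_injective h'

theorem F_eq (a b c d : G → ℝ) :
    F a b c d = ∑ x, ∑ y, ∑ z, a x * b y * c z * d (z⁻¹ * (x * y)) := by
  unfold F
  rw [Fintype.sum_prod_type, Fintype.sum_prod_type]
  refine sum_congr rfl fun x _ => sum_congr rfl fun y _ => ?_
  rw [Fintype.sum_prod_type]
  refine sum_congr rfl fun z _ => ?_
  rw [sum_eq_single (z⁻¹ * (x * y))]
  · simp
  · intro w _ hw
    rw [if_neg]
    intro h
    apply hw
    simp only at h
    rw [h]
    simp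
  · intro h
    exact absurd (mem_univ _) h

theorem l2_conv (μ ν : G → ℝ) : l2 (conv μ ν) = F μ ν μ ν := by
  rw [F_eq]
  unfold l2 conv
  have e1 : ∀ x, ∑ y, ∑ z, μ x * ν y * μ z * ν (z⁻¹ * (x * y)) =
      ∑ g, ∑ z, μ x * ν (x⁻¹ * g) * μ z * ν (z⁻¹ * g) := by
    intro x
    refine Fintype.sum_equiv (Equiv.mulLeft x) _ _ fun y => ?_
    simp
  rw [sum_congr rfl fun x _ => e1 x, sum_comm]
  refine sum_congr rfl fun g _ => ?_
  rw [sq, sum_mul_sum]
  refine sum_congr rfl fun x _ => sum_congr rfl fun z _ => ?_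
  ring

theorem F_add1 (a a' b c d : G → ℝ) :
    F (fun x => a x + a' x) b c d = F a b c d + F a' b c d := by
  unfold F
  rw [← sum_add_distrib]
  refine sum_congr rfl fun q _ => ?_
  split_ifs <;> ring

theorem F_mono {a b c d a' b' c' d' : G → ℝ} (ha : ∀ x, 0 ≤ a x) (hb : ∀ x, 0 ≤ b x)
    (hc : ∀ x, 0 ≤ c x) (hd : ∀ x, 0 ≤ d x) (ha' : ∀ x, a x ≤ a' x) (hb' : ∀ x, b x ≤ b' x)
    (hc' : ∀ x, c x ≤ c' x) (hd' : ∀ x, d x ≤ d' x) : F a b c d ≤ F a' b' c' d' := by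
  unfold F
  refine sum_le_sum fun q _ => ?_
  split_ifs
  · have h1 : a q.1.1 * b q.1.2 ≤ a' q.1.1 * b' q.1.2 :=
      mul_le_mul (ha' _) (hb' _) (hb _) ((ha _).trans (ha' _))
    have h2 : a q.1.1 * b q.1.2 * c q.2.1 ≤ a' q.1.1 * b' q.1.2 * c' q.2.1 :=
      mul_le_mul h1 (hc' _) (hc _) (mul_nonneg ((ha _).trans (ha' _)) ((hb _).trans (hb' _)))
    exact mul_le_mul h2 (hd' _) (hd _)
      (mul_nonneg (mul_nonneg ((ha _).trans (ha' _)) ((hb _).trans (hb' _)))
        ((hc _).trans (hc' _)))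
  · exact le_rfl

/-- the properties shared by the factors -/
structure Ok (S : ℝ) (f : G → ℝ) : Prop where
  nonneg : ∀ x, 0 ≤ f x
  mass : ∑ x, f x ≤ 1
  ltwo : ∑ x, f x ^ 2 ≤ S

omit [DecidableEq G] in
theorem Ok.inv {S : ℝ} {f : G → ℝ} (h : Ok S f) : Ok S fun x => f x⁻¹ := by
  refine ⟨fun x => h.nonneg _, ?_, ?_⟩
  · rw [show ∑ x : G, f x⁻¹ = ∑ x, f x from
      Fintype.sum_equiv (Equiv.inv G) _ _ fun x => by simp]
    exact h.mass
  · rw [show ∑ x : G, f x⁻¹ ^ 2 = ∑ x, f x ^ 2 from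
      Fintype.sum_equiv (Equiv.inv G) _ _ fun x => by simp]
    exact h.ltwo

/-- the properties of the remainder -/
structure Rem (S t : ℝ) (lo hi : G → ℝ) : Prop where
  lo_nonneg : ∀ x, 0 ≤ lo x
  lo_le : ∀ x, lo x ≤ t
  hi_nonneg : ∀ x, 0 ≤ hi x
  hi_mass : (∑ x, hi x) * S ≤ t

omit [DecidableEq G] in
theorem Rem.inv {S t : ℝ} {lo hi : G → ℝ} (h : Rem S t lo hi) :
    Rem S t (fun x => lo x⁻¹) fun x => hi x⁻¹ := by
  refine ⟨fun x => h.lo_nonneg _, fun x => h.lo_le _, fun x => h.hi_nonneg _, ?_⟩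
  rw [show ∑ x : G, hi x⁻¹ = ∑ x, hi x from
    Fintype.sum_equiv (Equiv.inv G) _ _ fun x => by simp]
  exact h.hi_mass

theorem F_rem {S t : ℝ} (hS : 0 ≤ S) (ht : 0 ≤ t) {lo hi b c d : G → ℝ} (h : Rem S t lo hi)
    (hb : Ok S b) (hc : Ok S c) (hd : Ok S d) :
    F (fun x => lo x + hi x) b c d ≤ 2 * t := by
  rw [F_add1]
  have h1 : F lo b c d ≤ t := by
    rw [F_eq]
    calc ∑ x, ∑ y, ∑ z, lo x * b y * c z * d (z⁻¹ * (x * y))
        ≤ ∑ x, ∑ y, ∑ z, t * b y * c z * d (z⁻¹ * (x * y)) := by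
          refine sum_le_sum fun x _ => sum_le_sum fun y _ => sum_le_sum fun z _ => ?_
          have := h.lo_le x
          have h1 := hb.nonneg y
          have h2 := hc.nonneg z
          have h3 := hd.nonneg (z⁻¹ * (x * y))
          gcongr
      _ = ∑ y, ∑ z, t * b y * c z * ∑ x, d (z⁻¹ * (x * y)) := by
          rw [sum_comm]
          refine sum_congr rfl fun y _ => ?_
          rw [sum_comm]
          refine sum_congr rfl fun z _ => ?_
          rw [mul_sum]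
      _ = ∑ y, ∑ z, t * b y * c z * ∑ x, d x := by
          refine sum_congr rfl fun y _ => sum_congr rfl fun z _ => ?_
          congr 1
          refine Fintype.sum_equiv ((Equiv.mulRight y).trans (Equiv.mulLeft z⁻¹)) _ _ fun x => ?_
          simp
      _ ≤ ∑ y, ∑ z, t * b y * c z * 1 := by
          refine sum_le_sum fun y _ => sum_le_sum fun z _ => ?_
          exact mul_le_mul_of_nonneg_left hd.mass
            (mul_nonneg (mul_nonneg ht (hb.nonneg y)) (hc.nonneg z))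
      _ = t * ((∑ y, b y) * ∑ z, c z) := by
          rw [sum_mul_sum, mul_sum]
          refine sum_congr rfl fun y _ => ?_
          rw [mul_sum]
          refine sum_congr rfl fun z _ => ?_
          ring
      _ ≤ t * (1 * 1) := by
          refine mul_le_mul_of_nonneg_left ?_ ht
          exact mul_le_mul hb.mass hc.mass (sum_nonneg fun z _ => hc.nonneg z) zero_le_one
      _ = t := by ring
  have h2 : F hi b c d ≤ t := by
    rw [F_eq]
    calc ∑ x, ∑ y, ∑ z, hi x * b y * c z * d (z⁻¹ * (x * y))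
        = ∑ x, ∑ y, hi x * b y * ∑ z, c z * d (z⁻¹ * (x * y)) := by
          refine sum_congr rfl fun x _ => sum_congr rfl fun y _ => ?_
          rw [mul_sum]
          refine sum_congr rfl fun z _ => ?_
          ring
      _ ≤ ∑ x, ∑ y, hi x * b y * S := by
          refine sum_le_sum fun x _ => sum_le_sum fun y _ => ?_
          refine mul_le_mul_of_nonneg_left ?_ (mul_nonneg (h.hi_nonneg x) (hb.nonneg y))
          have e1 : ∑ z, c z * d (z⁻¹ * (x * y)) ≤
              ∑ z, (c z ^ 2 + d (z⁻¹ * (x * y)) ^ 2) / 2 := by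
            refine sum_le_sum fun z _ => ?_
            nlinarith [sq_nonneg (c z - d (z⁻¹ * (x * y)))]
          have e2 : ∑ z, d (z⁻¹ * (x * y)) ^ 2 = ∑ z, d z ^ 2 := by
            refine Fintype.sum_equiv ((Equiv.inv G).trans (Equiv.mulRight (x * y))) _ _
              fun z => ?_
            simp [mul_assoc]
          refine e1.trans ?_
          rw [← sum_div, sum_add_distrib, e2]
          have := hc.ltwo
          have := hd.ltwo
          linarith
      _ = (∑ x, hi x) * (∑ y, b y) * S := by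
          rw [sum_mul_sum, sum_mul]
          refine sum_congr rfl fun x _ => ?_
          rw [sum_mul]
      _ ≤ (∑ x, hi x) * 1 * S := by
          refine mul_le_mul_of_nonneg_right ?_ hS
          exact mul_le_mul_of_nonneg_left hb.mass (sum_nonneg fun x _ => h.hi_nonneg x)
      _ = (∑ x, hi x) * S := by ring
      _ ≤ t := h.hi_mass
  linarith

theorem telescope {S t : ℝ} (hS : 0 ≤ S) (ht : 0 ≤ t) {μ m lo hi : G → ℝ}
    (hsum : ∀ x, μ x = m x + (lo x + hi x)) (hμ : Ok S μ) (hm : Ok S m)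
    (h : Rem S t lo hi) : F μ μ μ μ ≤ F m m m m + 8 * t := by
  have hμ' : μ = fun x => m x + (lo x + hi x) := funext hsum
  have hμi : (fun x => μ x⁻¹) = fun x => m x⁻¹ + (lo x⁻¹ + hi x⁻¹) := funext fun x => hsum _
  have key : ∀ b c d : G → ℝ, Ok S b → Ok S c → Ok S d →
      F μ b c d ≤ F m b c d + 2 * t := by
    intro b c d hb hc hd
    have e : F μ b c d = F m b c d + F (fun x => lo x + hi x) b c d := by
      conv_lhs => rw [hμ']
      exact F_add1 _ _ _ _ _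
    rw [e]
    have := F_rem hS ht h hb hc hd
    linarith
  have keyi : ∀ b c d : G → ℝ, Ok S b → Ok S c → Ok S d →
      F (fun x => μ x⁻¹) b c d ≤ F (fun x => m x⁻¹) b c d + 2 * t := by
    intro b c d hb hc hd
    have e : F (fun x => μ x⁻¹) b c d =
        F (fun x => m x⁻¹) b c d + F (fun x => lo x⁻¹ + hi x⁻¹) b c d := by
      rw [hμi]
      exact F_add1 _ _ _ _ _
    rw [e]
    have := F_rem hS ht h.inv hb hc hd
    linarith
  have s1 : F μ μ μ μ ≤ F m μ μ μ + 2 * t := key μ μ μ hμ hμ hμ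
  have s2 : F m μ μ μ ≤ F m m μ μ + 2 * t := by
    rw [F_inv m μ μ μ, F_inv m m μ μ]
    exact keyi _ _ _ hm.inv hμ.inv hμ.inv
  have s3 : F m m μ μ ≤ F m m m μ + 2 * t := by
    rw [F_swap m m μ μ, F_swap m m m μ]
    exact key _ _ _ hμ hm hm
  have s4 : F m m m μ ≤ F m m m m + 2 * t := by
    rw [F_swap m m m μ, F_swap m m m m, F_inv m μ m m, F_inv m m m m]
    exact keyi _ _ _ hm.inv hm.inv hm.inv
  linarith

theorem F_level (X : Finset G) {m : G → ℝ} {T : ℝ} (h0 : ∀ x, 0 ≤ m x)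
    (h1 : ∀ x ∉ X, m x = 0) (h2 : ∀ x, m x ≤ T) : F m m m m ≤ T ^ 4 * EG X := by
  set ι : G → ℝ := fun x => if x ∈ X then 1 else 0 with hι
  have k : ∀ x, m x ≤ T * ι x := by
    intro x
    rw [hι]
    simp only
    split_ifs with h
    · rw [mul_one]; exact h2 x
    · rw [mul_zero, h1 x h]
  refine (F_mono h0 h0 h0 h0 k k k k).trans (le_of_eq ?_)
  have e : (EG X : ℝ) = ∑ q : (G × G) × (G × G), if q.1.1 * q.1.2 = q.2.1 * q.2.2 then
      ι q.1.1 * ι q.1.2 * ι q.2.1 * ι q.2.2 else 0 := by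
    have e1 : ∀ q : (G × G) × (G × G), (if q.1.1 * q.1.2 = q.2.1 * q.2.2 then
        ι q.1.1 * ι q.1.2 * ι q.2.1 * ι q.2.2 else 0) =
        if (q ∈ (X ×ˢ X) ×ˢ (X ×ˢ X) ∧ q.1.1 * q.1.2 = q.2.1 * q.2.2) then (1 : ℝ) else 0 := by
      rintro ⟨⟨x, y⟩, z, w⟩
      simp only [mem_product, hι]
      by_cases c0 : x * y = z * w
      · by_cases c1 : x ∈ X
        · by_cases c2 : y ∈ X
          · by_cases c3 : z ∈ X
            · by_cases c4 : w ∈ X
              · simp [c0, c1, c2, c3, c4]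
              · simp [c4]
            · simp [c3]
          · simp [c2]
        · simp [c1]
      · simp [c0]
    rw [sum_congr rfl fun q _ => e1 q, sum_boole]
    unfold EG
    congr 2
    ext q
    simp
  rw [e, mul_sum]
  unfold F
  refine sum_congr rfl fun q _ => ?_
  split_ifs
  · ring
  · ring

omit [Fintype G] in
theorem EG_le (X : Finset G) : (EG X : ℝ) ≤ (#X : ℝ) ^ 3 := by
  have h : EG X ≤ #(X ×ˢ X ×ˢ X) := by
    unfold EG
    refine card_le_card_of_injOn (fun q => (q.1.1, q.1.2, q.2.1)) ?_ ?_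
    · rintro ⟨⟨x, y⟩, z, w⟩ hq
      simp only [coe_filter, Set.mem_ofPred_eq, mem_product] at hq
      simp only [coe_product, Set.mem_prod, mem_coe]
      exact ⟨hq.1.1.1, hq.1.1.2, hq.1.2.1⟩
    · rintro ⟨⟨x, y⟩, z, w⟩ hq ⟨⟨x', y'⟩, z', w'⟩ hq' h
      simp only [coe_filter, Set.mem_ofPred_eq, mem_product] at hq hq'
      simp only [Prod.mk.injEq] at h ⊢
      obtain ⟨rfl, rfl, rfl⟩ := h
      refine ⟨⟨rfl, rfl⟩, rfl, ?_⟩
      exact mul_left_cancel (hq.2.symm.trans hq'.2)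
  rw [card_product, card_product] at h
  calc (EG X : ℝ) ≤ ((#X * (#X * #X) : ℕ) : ℝ) := by exact_mod_cast h
    _ = _ := by push_cast; ring

end TRG

open TRG

theorem specTRG : SpecTRG := by
  intro G _ _ _ μ K hK hμ hE
  obtain ⟨hμ0, hμ1⟩ := hμ
  set S : ℝ := l2 μ with hS
  have hK0 : 0 < K := by linarith
  have hS0 : 0 < S := by
    have h0 : ∃ x, μ x ≠ 0 := by
      by_contra hcon
      push Not at hcon
      rw [sum_eq_zero fun x _ => hcon x] at hμ1
      exact zero_ne_one hμ1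
    obtain ⟨x, hx⟩ := h0
    exact sum_pos' (fun y _ => sq_nonneg _) ⟨x, mem_univ x, by positivity⟩
  obtain ⟨t, ht⟩ : ∃ t : ℝ, t = S / (32 * K) := ⟨_, rfl⟩
  obtain ⟨T, hT⟩ : ∃ T : ℝ, T = 32 * K * S := ⟨_, rfl⟩
  have ht0 : 0 < t := by rw [ht]; positivity
  have hT0 : 0 < T := by rw [hT]; positivity
  obtain ⟨X, hX⟩ : ∃ X : Finset G, ∀ x, x ∈ X ↔ (t < μ x ∧ μ x ≤ T) :=
    ⟨univ.filter (fun x => t < μ x ∧ μ x ≤ T), fun x => by simp⟩
  have hX0 : (0 : ℝ) ≤ #X := Nat.cast_nonneg _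
  have hXS : (#X : ℝ) * S ≤ 32 * K := by
    have h1 : (#X : ℝ) * t ≤ 1 := by
      calc (#X : ℝ) * t = ∑ _x ∈ X, t := by rw [sum_const, nsmul_eq_mul]
        _ ≤ ∑ x ∈ X, μ x := sum_le_sum fun x hx => ((hX x).mp hx).1.le
        _ ≤ ∑ x, μ x := sum_le_sum_of_subset_of_nonneg (subset_univ _) fun x _ _ => hμ0 x
        _ = 1 := hμ1
    have h2 : (#X : ℝ) * S = (#X : ℝ) * t * (32 * K) := by
      rw [ht]
      field_simp
    rw [h2]
    calc (#X : ℝ) * t * (32 * K) ≤ 1 * (32 * K) := mul_le_mul_of_nonneg_right h1 (by positivity)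
      _ = 32 * K := one_mul _
  obtain ⟨mid, hmid⟩ : ∃ mid : G → ℝ, ∀ x, mid x = if t < μ x ∧ μ x ≤ T then μ x else 0 :=
    ⟨_, fun _ => rfl⟩
  obtain ⟨lo, hlo⟩ : ∃ lo : G → ℝ, ∀ x, lo x = if μ x ≤ t then μ x else 0 := ⟨_, fun _ => rfl⟩
  obtain ⟨hi, hhi⟩ : ∃ hi : G → ℝ, ∀ x, hi x = if t < μ x ∧ T < μ x then μ x else 0 :=
    ⟨_, fun _ => rfl⟩
  have hsum : ∀ x, μ x = mid x + (lo x + hi x) := by
    intro x
    rw [hmid, hlo, hhi]
    rcases le_or_gt (μ x) t with h1 | h1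
    · rw [if_neg fun h => absurd h.1 (not_lt.mpr h1), if_pos h1,
        if_neg fun h => absurd h.1 (not_lt.mpr h1)]
      ring
    · rcases le_or_gt (μ x) T with h2 | h2
      · rw [if_pos ⟨h1, h2⟩, if_neg (not_le.mpr h1), if_neg fun h => absurd h.2 (not_lt.mpr h2)]
        ring
      · rw [if_neg fun h => absurd h.2 (not_le.mpr h2), if_neg (not_le.mpr h1), if_pos ⟨h1, h2⟩]
        ring
  have hm0 : ∀ x, 0 ≤ mid x := by
    intro x
    rw [hmid]
    split_ifs
    · exact hμ0 x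
    · exact le_rfl
  have hmμ : ∀ x, mid x ≤ μ x := by
    intro x
    rw [hmid]
    split_ifs
    · exact le_rfl
    · exact hμ0 x
  have hR : Rem S t lo hi := by
    refine ⟨fun x => ?_, fun x => ?_, fun x => ?_, ?_⟩
    · rw [hlo]
      split_ifs
      · exact hμ0 x
      · exact le_rfl
    · rw [hlo]
      split_ifs with h
      · exact h
      · exact ht0.le
    · rw [hhi]
      split_ifs
      · exact hμ0 x
      · exact le_rfl
    · have h1 : T * ∑ x, hi x ≤ S := by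
        rw [mul_sum, hS, l2]
        refine sum_le_sum fun x _ => ?_
        rw [hhi]
        split_ifs with h
        · rw [sq]
          exact mul_le_mul_of_nonneg_right h.2.le (hμ0 x)
        · rw [mul_zero]
          exact sq_nonneg _
      have h2 : (∑ x, hi x) * S = (T * ∑ x, hi x) / (32 * K) := by
        rw [hT]
        field_simp
      rw [h2, ht]
      exact div_le_div_of_nonneg_right h1 (by positivity)
  have hOμ : Ok S μ := ⟨hμ0, hμ1.le, le_rfl⟩
  have hOm : Ok S mid := by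
    refine ⟨hm0, (sum_le_sum fun x _ => hmμ x).trans hμ1.le, ?_⟩
    refine (sum_le_sum fun x _ => ?_ : ∑ x, mid x ^ 2 ≤ ∑ x, μ x ^ 2)
    exact pow_le_pow_left₀ (hm0 x) (hmμ x) 2
  have htel := telescope hS0.le ht0.le hsum hOμ hOm hR
  rw [← l2_conv] at htel
  have hlev := F_level X (T := T) hm0 (fun x hx => by
    rw [hmid, if_neg]
    intro hc
    exact hx ((hX x).mpr hc)) (fun x => by
    rw [hmid]
    split_ifs with h
    · exact h.2
    · exact hT0.le)
  have hEG0 : (0 : ℝ) ≤ EG X := Nat.cast_nonneg _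
  have h2 : 1 ≤ 2 ^ 21 * K ^ 5 * S ^ 3 * EG X := by
    have h3 : S ≤ K * (T ^ 4 * EG X + 8 * t) := by
      refine hE.trans (mul_le_mul_of_nonneg_left ?_ hK0.le)
      linarith
    have h4 : K * (8 * t) = S / 4 := by
      rw [ht]
      field_simp
      norm_num
    have h5 : K * (T ^ 4 * EG X) * 2 = S * (2 ^ 21 * K ^ 5 * S ^ 3 * EG X) := by
      rw [hT]
      ring
    have h6 : S * 1 ≤ S * (2 ^ 21 * K ^ 5 * S ^ 3 * EG X) := by
      rw [← h5]
      have : K * (T ^ 4 * EG X + 8 * t) = K * (T ^ 4 * EG X) + K * (8 * t) := by ring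
      rw [this, h4] at h3
      linarith
    exact le_of_mul_le_mul_left h6 hS0
  refine ⟨X, fun x hx => ?_, ?_, ?_⟩
  · have h1 := ((hX x).mp hx).1
    rw [ht, div_lt_iff₀ (by positivity)] at h1
    linarith
  · have h3 : ((#X : ℝ) * S) ^ 3 ≤ (32 * K) ^ 3 :=
      pow_le_pow_left₀ (mul_nonneg hX0 hS0.le) hXS 3
    have h4 : (#X : ℝ) ^ 3 * 1 ≤ (#X : ℝ) ^ 3 * (2 ^ 21 * K ^ 5 * S ^ 3 * EG X) :=
      mul_le_mul_of_nonneg_left h2 (pow_nonneg hX0 3)
    calc (#X : ℝ) ^ 3 = (#X : ℝ) ^ 3 * 1 := (mul_one _).symm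
      _ ≤ (#X : ℝ) ^ 3 * (2 ^ 21 * K ^ 5 * S ^ 3 * EG X) := h4
      _ = ((#X : ℝ) * S) ^ 3 * (2 ^ 21 * K ^ 5 * EG X) := by ring
      _ ≤ (32 * K) ^ 3 * (2 ^ 21 * K ^ 5 * EG X) :=
        mul_le_mul_of_nonneg_right h3 (by positivity)
      _ = 2 ^ 36 * K ^ 8 * EG X := by ring
  · calc (1 : ℝ) ≤ 2 ^ 21 * K ^ 5 * S ^ 3 * EG X := h2
      _ ≤ 2 ^ 21 * K ^ 5 * S ^ 3 * (#X : ℝ) ^ 3 :=
        mul_le_mul_of_nonneg_left (EG_le X) (by positivity)
      _ = 2 ^ 21 * K ^ 5 * (#X * S) ^ 3 := by ring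

end MPcb27.LN
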