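import Pool.Agent.Lib.MP_cb27ba_nt.LN.Spec
import Pool.Agent.Lib.MP_cb27ba_nt.SP.FINSP
import Pool.Agent.Lib.MP_cb27ba_nt.TW.All
import Pool.Agent.Lib.MP_cb27ba_nt.SP.PIV
import Pool.Agent.Lib.MP_cb27ba_nt.LN.TRG
import Pool.Agent.Lib.MP_cb27ba_nt.LN.BSGG
import Pool.Agent.Lib.MP_cb27ba_nt.LN.OPL
import Pool.Agent.Lib.MP_cb27ba_nt.LN.CLS
import Pool.Agent.Lib.MP_cb27ba_nt.LN.NAL

section
/-!
# MP_cb27ba_nt, LN: FINLN (theorem LN, from theorem A and NAL)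
-/
set_option autoImplicit false

namespace MPcb27.LN

open Finset
open scoped Pointwise
open MPcb27.TU MPcb27.TW

namespace FINLN

/-- the number of representations -/
theorem rep_le {p : ℕ} [Fact p.Prime] (δ : ℝ) (Φ : Finset (ZMod p × ZMod p))
    (hΦ : OffLines δ Φ) (C : Finset (ZMod p)) (a : ZMod p) :
    (#((Φ ×ˢ C).filter fun x => x.1.1 * x.2 + x.1.2 = a) : ℝ) ≤
      #C * ((p : ℝ) ^ (-δ) * #Φ) := by
  have h1 : #((Φ ×ˢ C).filter fun x => x.1.1 * x.2 + x.1.2 = a) =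
      ∑ c ∈ C, #(Φ.filter fun φ => φ.1 * c + φ.2 = a) := by
    simp only [card_filter]
    rw [sum_product_right]
  rw [h1]
  push_cast
  rw [← nsmul_eq_mul]
  exact sum_le_card_nsmul _ _ _ fun c _ => hΦ.2 c a

theorem mono {p : ℕ} [Fact p.Prime] {δ δ' : ℝ} (h : δ' ≤ δ) (Φ : Finset (ZMod p × ZMod p))
    (hΦ : OffLines δ Φ) : OffLines δ' Φ := by
  have hpr : p.Prime := Fact.out
  have hp1 : (1 : ℝ) ≤ p := by exact_mod_cast hpr.one_lt.le
  have h1 : (p : ℝ) ^ (-δ) * #Φ ≤ (p : ℝ) ^ (-δ') * #Φ :=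
    mul_le_mul_of_nonneg_right (Real.rpow_le_rpow_of_exponent_le hp1 (by linarith))
      (Nat.cast_nonneg _)
  exact ⟨fun d => (hΦ.1 d).trans h1, fun x y => (hΦ.2 x y).trans h1⟩

end FINLN

open SP.FINSP

theorem finalLN (hA : FinalA) (hN : SpecNAL) : FinalLN := by
  classical
  intro δ hδ
  obtain ⟨κ, hκ, P₁, hP₁⟩ := hN (δ / 2) (by positivity)
  set δ' : ℝ := min δ (κ / 2) with hδ'
  have hδ'0 : 0 < δ' := lt_min hδ (by positivity)
  have hδ'δ : δ' ≤ δ := min_le_left _ _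
  have hδ'κ : δ' ≤ κ / 2 := min_le_right _ _
  obtain ⟨τ, hτ, P₂, hP₂⟩ := hA δ' hδ'0
  set τ' : ℝ := min τ (min (κ / 4) (δ / 4)) with hτ'
  have hτ'0 : 0 < τ' := lt_min hτ (lt_min (by positivity) (by positivity))
  have hτ'τ : τ' ≤ τ := min_le_left _ _
  have hτ'κ : τ' ≤ κ / 4 := (min_le_right _ _).trans (min_le_left _ _)
  have hτ'δ : τ' ≤ δ / 4 := (min_le_right _ _).trans (min_le_right _ _)
  refine ⟨τ', hτ'0, max P₁ P₂, ?_⟩
  intro p _ hp B F hB hF A hAF χ hχ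
  have hpr : p.Prime := Fact.out
  have hp1 : (1 : ℝ) ≤ p := by exact_mod_cast hpr.one_lt.le
  have hp0 : (0 : ℝ) < p := by linarith
  have hpP₁ : P₁ ≤ p := (le_max_left _ _).trans hp
  have hpP₂ : P₂ ≤ p := (le_max_right _ _).trans hp
  obtain ⟨S₀, hS₀⟩ : ∃ S₀ : ℝ, S₀ = ∑ q ∈ F, (#q.1 : ℝ) * #q.2.1 / q.2.2 := ⟨_, rfl⟩
  rw [← hS₀]
  rcases A.eq_empty_or_nonempty with rfl | hAne
  · intro α β
    simp only [sum_empty, norm_zero, Real.sqrt_zero, zero_mul, mul_zero, le_refl]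
  rcases le_or_gt (#B : ℝ) ((p : ℝ) ^ (1 - δ / 2)) with hBs | hBl
  · -- theorem A
    have h1 := hP₂ p hpP₂ B F (by
      intro q hq
      obtain ⟨h0, hΦ, hC, hm⟩ := hF q hq
      refine ⟨h0, ?_, hm, ?_⟩
      · exact (Real.rpow_le_rpow_of_exponent_le hp1 hδ'δ).trans hC
      · have h3 := hP₁ p hpP₁ q.1 B h0 (FINLN.mono (by linarith) q.1 hΦ) hBs
        have h4 : (p : ℝ) ^ (1 + δ') * (p : ℝ) ^ (-κ) ≤ (#B : ℝ) ^ 2 := by
          calc (p : ℝ) ^ (1 + δ') * (p : ℝ) ^ (-κ) = (p : ℝ) ^ (1 + δ' - κ) := by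
                rw [← Real.rpow_add hp0]
                congr 1
            _ ≤ (p : ℝ) ^ ((1 / 2 - τ') * 2) :=
                Real.rpow_le_rpow_of_exponent_le hp1 (by linarith)
            _ = ((p : ℝ) ^ (1 / 2 - τ')) ^ 2 := by
                rw [Real.rpow_mul hp0.le, Real.rpow_two]
            _ ≤ _ := pow_le_pow_left₀ (by positivity) hB 2
        calc (p : ℝ) ^ (1 + δ') * NA q.1 B
            ≤ (p : ℝ) ^ (1 + δ') * ((p : ℝ) ^ (-κ) * ((#q.1 : ℝ) ^ 2 * (#B : ℝ) ^ 2)) :=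
              mul_le_mul_of_nonneg_left h3 (by positivity)
          _ = ((p : ℝ) ^ (1 + δ') * (p : ℝ) ^ (-κ)) *
                ((#q.1 : ℝ) ^ 2 * (#B : ℝ) ^ 2) := by ring
          _ ≤ (#B : ℝ) ^ 2 * ((#q.1 : ℝ) ^ 2 * (#B : ℝ) ^ 2) :=
              mul_le_mul_of_nonneg_right h4 (by positivity)
          _ = _ := by ring) A hAF χ hχ
    refine nb_mono χ A B ?_ h1
    rw [← hS₀]
    exact mul_le_mul_of_nonneg_right (Real.rpow_le_rpow_of_exponent_le hp1 (by linarith))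
      (Real.sqrt_nonneg _)
  · -- the trivial bound
    refine nb_mono χ A B ?_ (nb_sqrt χ hχ A B)
    obtain ⟨a, ha⟩ := hAne
    obtain ⟨q, hq, hqa⟩ := hAF a ha
    obtain ⟨h0, hΦ, hC, hm⟩ := hF q hq
    have h1 : (q.2.2 : ℝ) ≤ #q.2.1 * ((p : ℝ) ^ (-δ) * #q.1) :=
      (Nat.cast_le.2 hqa).trans (FINLN.rep_le δ q.1 hΦ q.2.1 a)
    have hm0 : (0 : ℝ) < q.2.2 := by exact_mod_cast hm
    have h2 : (p : ℝ) ^ δ ≤ (#q.1 : ℝ) * #q.2.1 / q.2.2 := by
      rw [le_div_iff₀ hm0]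
      have e : (p : ℝ) ^ δ * (p : ℝ) ^ (-δ) = 1 := by
        rw [← Real.rpow_add hp0, add_neg_cancel, Real.rpow_zero]
      calc (p : ℝ) ^ δ * q.2.2 ≤ (p : ℝ) ^ δ * (#q.2.1 * ((p : ℝ) ^ (-δ) * #q.1)) :=
            mul_le_mul_of_nonneg_left h1 (by positivity)
        _ = ((p : ℝ) ^ δ * (p : ℝ) ^ (-δ)) * (#q.1 * #q.2.1) := by ring
        _ = _ := by rw [e, one_mul]
    have h3 : (p : ℝ) ^ δ ≤ S₀ := by
      rw [hS₀]
      refine h2.trans ?_
      exact single_le_sum (f := fun q : Finset (ZMod p × ZMod p) × Finset (ZMod p) × ℕ =>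
        (#q.1 : ℝ) * #q.2.1 / q.2.2) (fun _ _ => by positivity) hq
    have h4 : (p : ℝ) ≤ (p : ℝ) ^ (-(2 * τ')) * (S₀ * #B) := by
      calc (p : ℝ) = (p : ℝ) ^ (1 : ℝ) := (Real.rpow_one _).symm
        _ ≤ (p : ℝ) ^ (-(2 * τ') + (δ + (1 - δ / 2))) :=
            Real.rpow_le_rpow_of_exponent_le hp1 (by linarith)
        _ = (p : ℝ) ^ (-(2 * τ')) * ((p : ℝ) ^ δ * (p : ℝ) ^ (1 - δ / 2)) := by
            rw [Real.rpow_add hp0, Real.rpow_add hp0 δ]
        _ ≤ _ := by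
            refine mul_le_mul_of_nonneg_left ?_ (by positivity)
            exact mul_le_mul h3 hBl.le (by positivity) (le_trans (by positivity) h3)
    calc Real.sqrt p ≤ Real.sqrt ((p : ℝ) ^ (-(2 * τ')) * (S₀ * #B)) := Real.sqrt_le_sqrt h4
      _ = (p : ℝ) ^ (-τ') * Real.sqrt (S₀ * #B) := by
          rw [Real.sqrt_mul (by positivity)]
          congr 1
          rw [show (p : ℝ) ^ (-(2 * τ')) = ((p : ℝ) ^ (-τ')) ^ 2 by
            rw [← Real.rpow_natCast, ← Real.rpow_mul hp0.le]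
            congr 1
            push_cast
            ring]
          exact Real.sqrt_sq (by positivity)

end MPcb27.LN
end

section
/-!
# MP_cb27ba_nt, project LN: assembly

Families of affine maps not concentrated on a line, against an arbitrary set.
-/
set_option autoImplicit false

namespace MPcb27.LN

/-- flattening in the affine group -/
theorem flg : SpecFLG := specFLG specTRG specBSGG specAPX specCLS

/-- the bound for the count `NA` of theorem A -/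
theorem nal : SpecNAL := specNAL flg specOPL specITR

/-- THEOREM LN -/
theorem theoremLN : FinalLN := finalLN TW.theoremA nal

end MPcb27.LN
end
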