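import Pool.Agent.Lib.MP_cb27ba_nt.TW.Spec3

/-!
# MP_cb27ba_nt, project LN (families of affine maps not concentrated on a line): exact statements

`Φ` a finite set of affine maps `x ↦ u x + v`, given as pairs `(u, v)`, `u ≠ 0`, such that NO LINE of
the plane contains more than `p ^ (-δ) #Φ` points of `Φ`; `C` an ARBITRARY set of at least `p ^ δ`
elements, `B` an ARBITRARY set of at least `p ^ (1/2 - τ)` elements. Contains `SP.FinalSP`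
(`Φ = D × E`) and `SP.FinalAC`.

Chain: `TW.FinalA` (theorem A) needs `NA Φ B ≤ p^(-1-δ) #Φ² #B⁴`. `NA Φ B ≤ #B #Φ² ⟨T_ρ 1_B, 1_B⟩`,
`ρ` the law of `φ φ₁⁻¹`. Flattening in the affine group (Bourgain-Gamburd, from
Balog-Szemerédi-Gowers and the pivot argument `SP.SpecPIV`): `ℓ²`-norm of `ρ * ... * ρ` at most
`p^(-1-δ/2)`; sharp 2-transitivity of the affine group.

In the modules: `G` a group, `μ`, `ν` functions on `G`.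
-/

set_option autoImplicit false

namespace MPcb27.LN

open Finset
open scoped Pointwise
open MPcb27.TU MPcb27.TW

/-! ## the affine group -/

/-- the invertible affine maps `x ↦ a x + b` -/
@[ext]
structure Aff (p : ℕ) where
  /-- slope -/
  a : (ZMod p)ˣ
  /-- translation -/
  b : ZMod p
  deriving DecidableEq

namespace Aff

variable {p : ℕ}

instance : Mul (Aff p) := ⟨fun f g => ⟨f.a * g.a, f.a * g.b + f.b⟩⟩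

instance : One (Aff p) := ⟨⟨1, 0⟩⟩

instance : Inv (Aff p) := ⟨fun f => ⟨f.a⁻¹, -((f.a⁻¹ : (ZMod p)ˣ) * f.b)⟩⟩

@[simp] theorem mul_a (f g : Aff p) : (f * g).a = f.a * g.a := rfl

@[simp] theorem mul_b (f g : Aff p) : (f * g).b = f.a * g.b + f.b := rfl

@[simp] theorem one_a : (1 : Aff p).a = 1 := rfl

@[simp] theorem one_b : (1 : Aff p).b = 0 := rfl

@[simp] theorem inv_a (f : Aff p) : (f⁻¹).a = f.a⁻¹ := rfl

@[simp] theorem inv_b (f : Aff p) : (f⁻¹).b = -((f.a⁻¹ : (ZMod p)ˣ) * f.b) := rfl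

instance : Group (Aff p) :=
  Group.ofLeftAxioms
    (fun f g h => Aff.ext (by simp [mul_assoc]) (by simp [mul_add, mul_assoc, add_assoc]))
    (fun f => Aff.ext (by simp) (by simp))
    (fun f => Aff.ext (by simp) (by simp))

/-- as pairs -/
def toProd : Aff p ≃ (ZMod p)ˣ × ZMod p where
  toFun f := (f.a, f.b)
  invFun q := ⟨q.1, q.2⟩
  left_inv _ := rfl
  right_inv _ := rfl

instance [NeZero p] : Fintype (Aff p) := Fintype.ofEquiv _ toProd.symm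

/-- the value at `x` -/
def act (f : Aff p) (x : ZMod p) : ZMod p := f.a * x + f.b

theorem act_def (f : Aff p) (x : ZMod p) : f.act x = f.a * x + f.b := rfl

@[simp] theorem act_mul (f g : Aff p) (x : ZMod p) : (f * g).act x = f.act (g.act x) := by
  simp only [act, mul_a, mul_b, Units.val_mul]
  ring

@[simp] theorem act_one (x : ZMod p) : (1 : Aff p).act x = x := by simp [act]

@[simp] theorem act_inv_act (f : Aff p) (x : ZMod p) : f⁻¹.act (f.act x) = x := by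
  rw [← act_mul, inv_mul_cancel, act_one]

@[simp] theorem act_act_inv (f : Aff p) (x : ZMod p) : f.act (f⁻¹.act x) = x := by
  rw [← act_mul, mul_inv_cancel, act_one]

theorem act_inj (f : Aff p) {x y : ZMod p} : f.act x = f.act y ↔ x = y :=
  ⟨fun h => by rw [← act_inv_act f x, h, act_inv_act], fun h => h ▸ rfl⟩

theorem act_eq_iff (f : Aff p) {x y : ZMod p} : f.act x = y ↔ x = f⁻¹.act y :=
  ⟨fun h => by rw [← h, act_inv_act], fun h => by rw [h, act_act_inv]⟩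

end Aff

/-! ## functions on a group -/

section

variable {G : Type} [Group G] [Fintype G]

/-- convolution -/
def conv (μ ν : G → ℝ) : G → ℝ := fun g => ∑ h, μ h * ν (h⁻¹ * g)

/-- `ℓ²`-norm squared -/
def l2 (μ : G → ℝ) : ℝ := ∑ g, μ g ^ 2

/-- probability measure -/
def IsProb (μ : G → ℝ) : Prop := (∀ g, 0 ≤ μ g) ∧ ∑ g, μ g = 1

/-- symmetric -/
def IsSymm (μ : G → ℝ) : Prop := ∀ g, μ g⁻¹ = μ g

/-- the `2 ^ j`-fold convolution power -/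
def dbl (μ : G → ℝ) : ℕ → G → ℝ
  | 0 => μ
  | j + 1 => conv (dbl μ j) (dbl μ j)

end

/-- multiplicative energy: number of solutions of `x y = z w` in `X` -/
def EG {G : Type} [Group G] [DecidableEq G] (X : Finset G) : ℕ :=
  #(((X ×ˢ X) ×ˢ (X ×ˢ X)).filter fun q => q.1.1 * q.1.2 = q.2.1 * q.2.2)

/-! ## modules for arbitrary groups -/

/-- TRG: truncation (as `SP.SpecTRUNC`). `S = l2 μ`, `t = S / (32 K)`, `T = 32 K S`,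
`X = {t < μ ≤ T}`. In the four-linear form `∑_{x y = z w} μ x μ y μ z μ w = l2 (conv μ μ)`, one
factor replaced by `μ 1_{μ ≤ t}` gives at most `t`; one factor replaced by `μ 1_{μ > T}` gives at
most `‖μ 1_{μ > T}‖₁ S ≤ S² / T`. So `l2 (conv (μ 1_X) (μ 1_X)) ≥ S / K - 4 t - 4 S² / T ≥ S / (2 K)`,
and it is `≤ T⁴ EG X ≤ T⁴ #X ^ 3`; and `#X t ≤ 1`. -/
def SpecTRG : Prop :=
  ∀ (G : Type) [Group G] [Fintype G] [DecidableEq G] (μ : G → ℝ) (K : ℝ), 1 ≤ K → IsProb μ →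
    l2 μ ≤ K * l2 (conv μ μ) →
    ∃ X : Finset G, (∀ x ∈ X, l2 μ ≤ 32 * K * μ x) ∧ (#X : ℝ) ^ 3 ≤ 2 ^ 36 * K ^ 8 * EG X ∧
      1 ≤ 2 ^ 21 * K ^ 5 * (#X * l2 μ) ^ 3

/-- BSGG: Balog-Szemerédi-Gowers in a group, from `SP.SpecGR` (proved: `SP.specGR`). Popular products
`Q = {g : r g ≥ #X / (2 K)}`, graph `{(x, y) : x y ∈ Q}`; for `a ∈ A'`, `b ∈ B'`:
`a b = (a y) (x y)⁻¹ (x b)`, so `#(A' * B') ≤ C K^C #X`; then Ruzsa's triangle inequality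
`#(A' * A'⁻¹) #B' ≤ #(A' * B') ^ 2`. -/
def SpecBSGG : Prop :=
  ∃ C : ℕ, ∀ (G : Type) [Group G] [DecidableEq G] (X : Finset G) (K : ℝ), 1 ≤ K →
    X.Nonempty → (#X : ℝ) ^ 3 ≤ K * EG X →
    ∃ X' : Finset G, X' ⊆ X ∧ (#X : ℝ) ≤ C * K ^ C * #X' ∧
      (#(X' * X'⁻¹) : ℝ) ≤ C * K ^ C * #X'

/-- APX: `S = {s : at least #X / (2 K) representations s = u⁻¹ v, u, v ∈ X}`.
`∑ r² = #{u⁻¹ v = u'⁻¹ v'} = #{u' u⁻¹ = v' v⁻¹} ≥ #X⁴ / #(X X⁻¹) ≥ #X³ / K`, so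
`∑_{s ∈ S} r s ≥ #X² / (2 K)`. For a product `s₁ ... s_n`, `s_i = u_i⁻¹ v_i`: the map
`(u_i) ↦ (u₁, v₁ u₂⁻¹, ..., v_{n-1} u_n⁻¹, v_n)` is injective. -/
def SpecAPX : Prop :=
  ∀ (G : Type) [Group G] [DecidableEq G] (X : Finset G) (K : ℝ), 1 ≤ K → X.Nonempty →
    (#(X * X⁻¹) : ℝ) ≤ K * #X →
    ∃ S : Finset G, 1 ∈ S ∧ S⁻¹ = S ∧ (#X : ℝ) ≤ 2 * K * #S ∧
      (∀ n : ℕ, (#(S ^ n) : ℝ) ≤ (2 * K ^ 2) ^ n * #X) ∧
      ∃ u ∈ X, (#X : ℝ) ≤ 2 * K * #(X.filter fun v => u⁻¹ * v ∈ S)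

/-! ## the affine group -/

/-- CLS: sets of small growth in the affine group. `Λ` = slopes of `S`,
`W n = {b : ⟨1, b⟩ ∈ S ^ n}`, `V = W 2`: `#(W n) #Λ ≤ #(S ^ (n+1))`, `#S ≤ #Λ #V`,
`V - λ V ⊆ W 6` for `λ ∈ Λ`. So `SP.SpecPIV` applies to `V`, `Λ`. If `#V ≤ C K ^ C`: let `s ∈ S` have
slope `≠ 1` and fixed point `x`; `t s t⁻¹ s⁻¹` is the translation by `(1 - a_s) t(x) - b_s ∈ W 4`. -/
def SpecCLS : Prop :=
  ∀ m : ℕ, ∃ C : ℕ, ∀ (p : ℕ) [Fact p.Prime] (S : Finset (Aff p)) (K : ℝ), 1 ≤ K → 1 ∈ S →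
    S⁻¹ = S → (#(S ^ 7) : ℝ) ≤ K * #S → 2 ≤ #(S.image Aff.a) → p < #(S.image Aff.a) ^ 2 ^ m →
    (∃ x : ZMod p, (#(S.image fun g => g.act x) : ℝ) ≤ C * K ^ C) ∨
      (p : ℝ) * #(S.image Aff.a) ≤ C * K ^ C * #S

/-- FLG: flattening. From TRG, BSGG, APX, CLS. The masses of the slope classes and of the sets
`{g : g x = y}` are inherited by `dbl ν j`. `l2 (dbl ν j)` decreases from `≤ 1` to `≥ p^(-2)`, so some
`j < J` has `l2 (dbl ν j) ≤ K l2 (dbl ν (j+1))`, `K = p^(2/J)`; with `μ = dbl ν j`: TRG, BSGG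
(for `X`), APX: `S` with `μ (u S) ≥ K^(-C)`, so `S` has at least `K^(-C) p^δ` slopes; CLS: the
first case gives `K^(-C) ≤ μ (u S) ≤ C K^C p^(-δ)`, false; the second gives
`l2 μ ≤ K^C / #S ≤ K^C p^(-1-δ)`. -/
def SpecFLG : Prop :=
  ∀ δ : ℝ, 0 < δ → ∃ J P : ℕ, ∀ (p : ℕ) [Fact p.Prime], P ≤ p →
    ∀ ν : Aff p → ℝ, IsProb ν →
      (∀ d : (ZMod p)ˣ, ∑ g ∈ univ.filter (fun g : Aff p => g.a = d), ν g ≤ (p : ℝ) ^ (-δ)) →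
      (∀ x y : ZMod p, ∑ g ∈ univ.filter (fun g : Aff p => g.act x = y), ν g ≤ (p : ℝ) ^ (-δ)) →
      l2 (dbl ν J) ≤ (p : ℝ) ^ (-(1 + δ / 2))

/-- the quadratic form `⟨T_μ f, f⟩` -/
def QF {p : ℕ} [Fact p.Prime] (μ : Aff p → ℝ) (f : ZMod p → ℝ) : ℝ :=
  ∑ g, μ g * ∑ x, f (g⁻¹.act x) * f x

/-- OPL: Cauchy-Schwarz and `∑_g ⟨g f, f⟩² = p (∑ f²)²` for `∑ f = 0` (for `x ≠ y` the pairs
`(g⁻¹ x, g⁻¹ y)` are all ordered pairs of distinct elements, once each). -/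
def SpecOPL : Prop :=
  ∀ (p : ℕ) [Fact p.Prime] (μ : Aff p → ℝ) (f : ZMod p → ℝ), ∑ x, f x = 0 →
    QF μ f ^ 2 ≤ p * l2 μ * (∑ x, f x ^ 2) ^ 2

/-- ITR: `⟨T f, f⟩² ≤ ‖T f‖² ‖f‖² = ⟨T_{ν * ν} f, f⟩ ‖f‖²`, iterated. -/
def SpecITR : Prop :=
  ∀ (p : ℕ) [Fact p.Prime] (ν : Aff p → ℝ) (f : ZMod p → ℝ), IsSymm ν → ∀ j : ℕ,
    QF ν f ^ 2 ^ j ≤ QF (dbl ν j) f * (∑ x, f x ^ 2) ^ (2 ^ j - 1)

/-- no line contains more than `p ^ (-δ) #Φ` points of `Φ` -/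
def OffLines {p : ℕ} (δ : ℝ) (Φ : Finset (ZMod p × ZMod p)) : Prop :=
  (∀ d, (#(Φ.filter fun φ => φ.1 = d) : ℝ) ≤ (p : ℝ) ^ (-δ) * #Φ) ∧
    ∀ x y, (#(Φ.filter fun φ => φ.1 * x + φ.2 = y) : ℝ) ≤ (p : ℝ) ^ (-δ) * #Φ

/-- NAL: from FLG, OPL, ITR. `NA Φ B = ∑_{φ,φ₁} #(φ⁻¹ B ∩ φ₁⁻¹ B) ^ 2 ≤ #B ∑_{φ,φ₁} #{b = φ φ₁⁻¹ b₁}`
`= #B #Φ² (QF ρ f + #B² / p)`, `ρ` = law of `φ φ₁⁻¹` (symmetric; masses `≤ p^(-δ)`),
`f = 1_B - #B / p`. `|QF ρ f| ^ 2^(J+1) ≤ p l2 (dbl ρ J) #B ^ 2^(J+1)`. -/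
def SpecNAL : Prop :=
  ∀ δ : ℝ, 0 < δ → ∃ κ : ℝ, 0 < κ ∧ ∃ P : ℕ, ∀ (p : ℕ) [Fact p.Prime], P ≤ p →
    ∀ (Φ : Finset (ZMod p × ZMod p)) (B : Finset (ZMod p)), (∀ φ ∈ Φ, φ.1 ≠ 0) →
      OffLines δ Φ → (#B : ℝ) ≤ (p : ℝ) ^ (1 - δ) →
      (NA Φ B : ℝ) ≤ (p : ℝ) ^ (-κ) * ((#Φ : ℝ) ^ 2 * (#B : ℝ) ^ 2)

/-- THEOREM LN. From `TW.FinalA`, NAL, and the trivial bound `√p` for `#B > p ^ (1 - δ/2)`
(`m ≤ #C p^(-δ) #Φ`). -/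
def FinalLN : Prop :=
  ∀ δ : ℝ, 0 < δ → ∃ τ : ℝ, 0 < τ ∧ ∃ P : ℕ, ∀ (p : ℕ) [Fact p.Prime], P ≤ p →
    ∀ (B : Finset (ZMod p)) (F : Finset (Finset (ZMod p × ZMod p) × Finset (ZMod p) × ℕ)),
      (p : ℝ) ^ (1 / 2 - τ) ≤ #B →
      (∀ q ∈ F, (∀ φ ∈ q.1, φ.1 ≠ 0) ∧ OffLines δ q.1 ∧ (p : ℝ) ^ δ ≤ #q.2.1 ∧ 1 ≤ q.2.2) →
      ∀ A : Finset (ZMod p),
        (∀ a ∈ A, ∃ q ∈ F, q.2.2 ≤ #((q.1 ×ˢ q.2.1).filter fun x => x.1.1 * x.2 + x.1.2 = a)) →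
        ∀ χ : MulChar (ZMod p) ℂ, χ ≠ 1 →
          NB χ A B ((p : ℝ) ^ (-τ) *
            Real.sqrt ((∑ q ∈ F, (#q.1 : ℝ) * #q.2.1 / q.2.2) * #B))

end MPcb27.LN
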